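import Mathlib
import Pool.Agent.N799.RI.Def

/-!
# The curse of dimensionality for smooth integration: definitions and the statements of the parts
Project CU (helper799), MP_562679_an.
-/

set_option autoImplicit false

namespace Pool.Agent.N799.CU

open MeasureTheory Finset Filter
open Pool.Agent.N799.RI (Alg)

/-- Euclidean space -/
abbrev E (d : ℕ) : Type := EuclideanSpace ℝ (Fin d)

/-- the class `C̃²(D)` -/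
def Ctil (d : ℕ) (D : Set (E d)) : Set (E d → ℝ) := {f | ContDiffOn ℝ 2 f D ∧ (∀ x ∈ D, |f x| ≤ 1) ∧
  (∀ x ∈ D, ∀ y ∈ D, |f x - f y| ≤ (Real.sqrt d)⁻¹ * ‖x - y‖) ∧
  ∀ Θ : E d, ‖Θ‖ = 1 → ∀ x ∈ D, ∀ y ∈ D, |fderiv ℝ f x Θ - fderiv ℝ f y Θ| ≤ (d : ℝ)⁻¹ * ‖x - y‖}

/-- the minimal worst case error of deterministic (adaptive) algorithms with at most `n` function values -/
noncomputable def minErr (d : ℕ) (D : Set (E d)) (n : ℕ) : ENNReal :=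
  ⨅ (A : Alg D) (_ : ∀ f ∈ Ctil d D, (A.card fun x : D => f x) ≤ n),
    ⨆ f ∈ Ctil d D, ENNReal.ofReal |(∫ x in D, f x) - A.run fun x : D => f x|

/-- the curse of dimensionality: there are `C, γ, ε₀ > 0` with `n(ε, d) ≥ C (1 + γ)^d` for all `ε ∈ (0, ε₀]`
and infinitely many `d` -/
def Curse (D : ∀ d : ℕ, Set (E d)) : Prop := ∃ C γ ε₀ : ℝ, 0 < C ∧ 0 < γ ∧ 0 < ε₀ ∧
  ∃ᶠ d in atTop, ∀ ε : ℝ, 0 < ε → ε ≤ ε₀ → ∀ n : ℕ, minErr d (D d) n ≤ ENNReal.ofReal ε → C * (1 + γ) ^ d ≤ n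

/-- the `ℓ_p` ball of radius `r` -/
def Bp (p : ℝ) (d : ℕ) (r : ℝ) : Set (E d) := {x | ∑ i, |x i / r| ^ p < 1}

/-- the `ℓ_p` ball of radius `r` in `Fin d → ℝ` -/
def BB (p : ℝ) (d : ℕ) (r : ℝ) : Set (Fin d → ℝ) := {x | ∑ i, |x i / r| ^ p < 1}

/-- from fooling functions to the error -/
def S_ERR : Prop := ∀ (d : ℕ) (D : Set (E d)) (n : ℕ) (ε : ℝ),
  (∀ pts : Fin n → E d, ∃ f ∈ Ctil d D, (∀ i, f (pts i) = 0) ∧ ε ≤ ∫ x in D, f x) →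
  ENNReal.ofReal ε ≤ minErr d D n

/-- a shell of fixed volume -/
def S_SHELL : Prop := ∀ (d : ℕ) (D : Set (E d)) (C₀ κ ε : ℝ) (K : ℕ), 1 ≤ d → MeasurableSet D → 0 < ε →
  1 ≤ K → C₀ < K * ε → 0 < κ →
  ENNReal.ofReal κ ≤ volume (D ∩ {x | ‖x‖ ^ 2 ≤ C₀ * d}) →
  ∃ j : ℕ, j < K ∧ ENNReal.ofReal (κ / K) ≤ volume (D ∩ {x | j * ε * d ≤ ‖x‖ ^ 2 ∧ ‖x‖ ^ 2 < (j + 1) * ε * d})

/-- points of the shell near the convex hull are near one of the points -/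
def S_HULL : Prop := ∀ (d : ℕ) (P : Finset (E d)) (x y : E d) (a b δ : ℝ), 0 ≤ δ → 0 ≤ a →
  (∀ z ∈ P, ‖z‖ ^ 2 ≤ b) → a ≤ ‖x‖ ^ 2 → ‖x‖ ^ 2 ≤ b → y ∈ convexHull ℝ (P : Set (E d)) → ‖x - y‖ ≤ δ →
  ∃ z ∈ P, ‖x - z‖ ≤ δ + Real.sqrt (b - a + 2 * δ * Real.sqrt b)

/-- balls of radius `√d / 30` are small -/
def S_BALL : Prop := ∀ (d : ℕ) (x : E d), 1 ≤ d →
  volume (Metric.closedBall x (Real.sqrt d / 30)) ≤ ENNReal.ofReal ((1 / 4) ^ d)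

/-- the function -/
noncomputable def Fn (d : ℕ) (T : ℝ) (K : Set (E d)) (x : E d) : ℝ :=
  max 0 (T - ‖x‖ ^ 2 / d) ^ 2 * (Metric.infDist x K ^ 2 / d)

/-- bounds for the function and its first and second differences -/
def S_FUN : Prop := ∀ T₀ : ℝ, 0 < T₀ → ∃ A : ℝ, 0 < A ∧ ∀ (d : ℕ) (T : ℝ) (K : Set (E d)), 1 ≤ d → 0 ≤ T →
  T ≤ T₀ → IsClosed K → Convex ℝ K → 0 ∈ K →
  (∀ x, 0 ≤ Fn d T K x ∧ Fn d T K x ≤ A) ∧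
  (∀ x h, ‖h‖ ≤ 1 → |Fn d T K (x + h) - Fn d T K x| ≤ A * (Real.sqrt d)⁻¹ * ‖h‖) ∧
  (∀ x h, ‖h‖ ≤ 1 → |Fn d T K (x + h) + Fn d T K (x - h) - 2 * Fn d T K x| ≤ A * (d : ℝ)⁻¹ * ‖h‖ ^ 2)

/-- smoothing -/
def S_MOL : Prop := ∀ (d : ℕ) (F : E d → ℝ) (M A B τ : ℝ), 0 ≤ A → 0 ≤ B → 0 < τ → τ ≤ 1 →
  (∀ x, 0 ≤ F x ∧ F x ≤ M) → (∀ x h, ‖h‖ ≤ 1 → |F (x + h) - F x| ≤ A * ‖h‖) →
  (∀ x h, ‖h‖ ≤ 1 → |F (x + h) + F (x - h) - 2 * F x| ≤ B * ‖h‖ ^ 2) →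
  ∃ f : E d → ℝ, ContDiff ℝ 2 f ∧ (∀ x, 0 ≤ f x ∧ f x ≤ M) ∧
    (∀ x h, ‖h‖ ≤ 1 → |f (x + h) - f x| ≤ A * ‖h‖) ∧
    (∀ x h, ‖h‖ ≤ 1 → |f (x + h) + f (x - h) - 2 * f x| ≤ B * ‖h‖ ^ 2) ∧
    (∀ x, |f x - F x| ≤ A * τ) ∧ ∀ x, (∀ y, ‖y - x‖ ≤ τ → F y = 0) → f x = 0

/-- from differences to derivatives -/
def S_HESS : Prop := ∀ (d : ℕ) (f : E d → ℝ) (A B : ℝ), 0 ≤ A → 0 ≤ B → ContDiff ℝ 2 f →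
  (∀ x h, ‖h‖ ≤ 1 → |f (x + h) - f x| ≤ A * ‖h‖) →
  (∀ x h, ‖h‖ ≤ 1 → |f (x + h) + f (x - h) - 2 * f x| ≤ B * ‖h‖ ^ 2) →
  (∀ x y, |f x - f y| ≤ A * ‖x - y‖) ∧
    ∀ Θ : E d, ‖Θ‖ = 1 → ∀ x y, |fderiv ℝ f x Θ - fderiv ℝ f y Θ| ≤ B * ‖x - y‖

/-- fooling functions for general domains -/
def S_FOOL : Prop := ∀ C₀ κ : ℝ, 0 < C₀ → 0 < κ → ∃ ε₁ : ℝ, 0 < ε₁ ∧ ∃ d₀ : ℕ, ∀ (d : ℕ), d₀ ≤ d →
  ∀ D : Set (E d), IsOpen D → volume D = 1 → ENNReal.ofReal κ ≤ volume (D ∩ {x | ‖x‖ ^ 2 ≤ C₀ * d}) →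
  ∀ (n : ℕ) (pts : Fin n → E d), n ≤ 2 ^ d → ∃ f ∈ Ctil d D, (∀ i, f (pts i) = 0) ∧ ε₁ < ∫ x in D, f x

/-- the radius of the ball of volume one -/
def S_RB : Prop := ∀ (p : ℝ) (d : ℕ) (r : ℝ), 0 < p → 1 ≤ d → 0 < r → volume (BB p d r) = 1 →
  (2 * r) ^ p ≤ d

/-- slices of the `ℓ_p` ball -/
def S_SLICE : Prop := ∀ (p : ℝ) (d : ℕ) (r : ℝ) (i : Fin (d + 1)) (g : ℝ → ENNReal), 0 < p → 1 ≤ d → 0 < r →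
  Measurable g →
  ∫⁻ x in BB p (d + 1) r, g (x i) =
    volume (BB p d r) * ∫⁻ s, g s * ENNReal.ofReal (max 0 (1 - |s / r| ^ p) ^ ((d : ℝ) / p))

/-- the second moment of a coordinate -/
def S_M2 : Prop := ∀ p : ℝ, 0 < p → ∃ C : ℝ, 0 < C ∧ ∀ (d : ℕ) (r : ℝ) (i : Fin d), 2 ≤ d → 0 < r →
  volume (BB p d r) = 1 → ∫⁻ x in BB p d r, ENNReal.ofReal (x i ^ 2) ≤ ENNReal.ofReal C

/-- a fixed proportion of the volume is in a ball of radius `√(C₀ d)` -/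
def S_LP : Prop := ∀ p : ℝ, 0 < p → ∃ C₀ : ℝ, 0 < C₀ ∧ ∀ (d : ℕ) (r : ℝ), 2 ≤ d → 0 < r →
  volume (Bp p d r) = 1 → ENNReal.ofReal (1 / 2) ≤ volume (Bp p d r ∩ {x | ‖x‖ ^ 2 ≤ C₀ * d})

/-- the radius exists and is unique -/
def S_EX : Prop := ∀ (p : ℝ) (d : ℕ), 0 < p → 1 ≤ d → ∃! r : ℝ, 0 < r ∧ volume (Bp p d r) = 1

/-- the balls are open -/
def S_OP : Prop := ∀ (p : ℝ) (d : ℕ) (r : ℝ), 0 < p → IsOpen (Bp p d r)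

end Pool.Agent.N799.CU
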