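import Pool.Agent.N799.CU.Def

set_option autoImplicit false

namespace Pool.Agent.N799.CU

open MeasureTheory

namespace LBALL

theorem gamma_ge {s : ℝ} (hs : 0 < s) : s ^ s * Real.exp (-s) ≤ Real.Gamma (s + 1) := by
  rw [Real.Gamma_eq_integral (by linarith)]
  have hint := Real.GammaIntegral_convergent (s := s + 1) (by linarith)
  have h1 : ∫ x in Set.Ioi s, Real.exp (-x) * x ^ (s + 1 - 1) ≤
      ∫ x in Set.Ioi (0:ℝ), Real.exp (-x) * x ^ (s + 1 - 1) := by
    apply setIntegral_mono_set hint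
    · filter_upwards [ae_restrict_mem measurableSet_Ioi] with x hx
      have : (0:ℝ) < x := hx
      positivity
    · exact (Set.Ioi_subset_Ioi hs.le).eventuallyLE
  refine le_trans ?_ h1
  have h2 : s ^ s * Real.exp (-s) = ∫ x in Set.Ioi s, s ^ s * Real.exp (-x) := by
    rw [integral_const_mul, integral_exp_neg_Ioi]
  rw [h2]
  apply setIntegral_mono_on
  · exact (integrableOn_exp_neg_Ioi s).const_mul _
  · exact hint.mono_set (Set.Ioi_subset_Ioi hs.le)
  · exact measurableSet_Ioi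
  · intro x hx
    have hx' : s < x := hx
    rw [add_sub_cancel_right, mul_comm]
    apply mul_le_mul_of_nonneg_left _ (Real.exp_pos _).le
    exact Real.rpow_le_rpow hs.le hx'.le hs.le

end LBALL

theorem t_BALL : S_BALL := by
  intro d x hd
  have : Nonempty (Fin d) := ⟨⟨0, hd⟩⟩
  rw [EuclideanSpace.volume_closedBall, Fintype.card_fin, ← ENNReal.ofReal_pow (by positivity),
    ← ENNReal.ofReal_mul (by positivity)]
  apply ENNReal.ofReal_le_ofReal
  have hd0 : (0:ℝ) < d := by exact_mod_cast hd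
  have hG := LBALL.gamma_ge (s := (d:ℝ) / 2) (by positivity)
  have hG0 : 0 < ((d:ℝ) / 2) ^ ((d:ℝ) / 2) * Real.exp (-((d:ℝ) / 2)) := by positivity
  have h1 : (Real.sqrt d / 30) ^ d * (Real.sqrt Real.pi ^ d / Real.Gamma ((d:ℝ) / 2 + 1)) ≤
      (Real.sqrt d / 30) ^ d * (Real.sqrt Real.pi ^ d /
        (((d:ℝ) / 2) ^ ((d:ℝ) / 2) * Real.exp (-((d:ℝ) / 2)))) := by
    gcongr
  refine h1.trans ?_
  have h2 : ((d:ℝ) / 2) ^ ((d:ℝ) / 2) = (Real.sqrt ((d:ℝ) / 2)) ^ d := by
    rw [Real.sqrt_eq_rpow, ← Real.rpow_natCast, ← Real.rpow_mul (by positivity)]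
    congr 1
    ring
  have h3 : Real.exp (-((d:ℝ) / 2)) = (Real.exp (-(1/2))) ^ d := by
    rw [← Real.exp_nat_mul]
    congr 1
    ring
  rw [h2, h3, ← mul_pow, ← div_pow, ← mul_pow]
  apply pow_le_pow_left₀ (by positivity)
  have hs0 : 0 < Real.sqrt ((d:ℝ) / 2) := Real.sqrt_pos.2 (by positivity)
  have hs1 : Real.sqrt d ≤ 3 / 2 * Real.sqrt ((d:ℝ) / 2) := by
    have e : Real.sqrt d = Real.sqrt 2 * Real.sqrt ((d:ℝ) / 2) := by
      rw [← Real.sqrt_mul (by norm_num)]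
      congr 1
      ring
    rw [e]
    apply mul_le_mul_of_nonneg_right _ hs0.le
    rw [Real.sqrt_le_left (by norm_num)]
    norm_num
  have hs2 : Real.sqrt Real.pi ≤ 2 := by
    rw [Real.sqrt_le_left (by norm_num)]
    linarith [Real.pi_le_four]
  have hs3 : (1:ℝ) / 2 ≤ Real.exp (-(1 / 2)) := by
    have := Real.add_one_le_exp (-(1 / 2) : ℝ)
    linarith
  rw [← mul_div_assoc, div_le_iff₀ (by positivity)]
  have h5 : Real.sqrt d * Real.sqrt Real.pi ≤ 3 / 2 * Real.sqrt ((d:ℝ) / 2) * 2 :=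
    mul_le_mul hs1 hs2 (Real.sqrt_nonneg _) (by positivity)
  have h6 := mul_le_mul_of_nonneg_left hs3 hs0.le
  linarith

end Pool.Agent.N799.CU
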