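import Pool.Agent.N799.CU.Def

/-!
# From fooling functions to the minimal error (S_ERR)
-/

set_option autoImplicit false

namespace Pool.Agent.N799.CU

open MeasureTheory Finset Filter
open Pool.Agent.N799.RI (Alg)

/-- the points asked by the run on the zero function determine the output for the functions which
vanish at these points -/
theorem run_zero {X : Type} (A : Alg X) : ∃ l : List X, l.length = A.card (fun _ => 0) ∧
    ∀ f : X → ℝ, (∀ x ∈ l, f x = 0) → A.run f = A.run (fun _ => 0) := by
  induction A with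
  | out r => exact ⟨[], rfl, fun f _ => rfl⟩
  | ask x next ih =>
    obtain ⟨l, hl, h⟩ := ih 0
    refine ⟨x :: l, ?_, fun f hf => ?_⟩
    · rw [List.length_cons, hl]
      rfl
    · have h1 : f x = 0 := hf x List.mem_cons_self
      have h2 := h f (fun y hy => hf y (List.mem_cons_of_mem _ hy))
      show (next (f x)).run f = (next 0).run (fun _ => 0)
      rw [h1]
      exact h2

theorem zero_mem (d : ℕ) (D : Set (E d)) : (fun _ => (0 : ℝ)) ∈ Ctil d D := by
  refine ⟨contDiffOn_const, fun x _ => by simp, fun x _ y _ => ?_, fun Θ _ x _ y _ => ?_⟩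
  · rw [sub_self, abs_zero]
    positivity
  · simp only [fderiv_fun_const, Pi.zero_apply, _root_.zero_apply, sub_self, abs_zero]
    positivity

theorem neg_mem (d : ℕ) (D : Set (E d)) (f : E d → ℝ) (hf : f ∈ Ctil d D) :
    (fun x => - f x) ∈ Ctil d D := by
  obtain ⟨h1, h2, h3, h4⟩ := hf
  refine ⟨h1.neg, fun x hx => ?_, fun x hx y hy => ?_, fun Θ hΘ x hx y hy => ?_⟩
  · rw [abs_neg]; exact h2 x hx
  · have := h3 x hx y hy
    rw [show - f x - - f y = -(f x - f y) by ring, abs_neg]
    exact this
  · have := h4 Θ hΘ x hx y hy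
    have e : ∀ z, fderiv ℝ (fun x => - f x) z Θ = - fderiv ℝ f z Θ := by
      intro z
      rw [fderiv_fun_neg, _root_.neg_apply]
    rw [e x, e y,
      show - fderiv ℝ f x Θ - - fderiv ℝ f y Θ = -(fderiv ℝ f x Θ - fderiv ℝ f y Θ) by ring, abs_neg]
    exact this

theorem t_ERR : S_ERR := by
  intro d D n ε h
  unfold minErr
  refine le_iInf₂ fun A hA => ?_
  obtain ⟨l, hl, hrun⟩ := run_zero A
  have hn : l.length ≤ n := by
    rw [hl]
    exact hA _ (zero_mem d D)
  obtain ⟨f, hf, hz, hI⟩ := h (fun i : Fin n => if hi : (i : ℕ) < l.length then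
    ((l.get ⟨i, hi⟩ : D) : E d) else 0)
  have hfl : ∀ x ∈ l, f (x : E d) = 0 := by
    intro x hx
    obtain ⟨i, hi⟩ := List.get_of_mem hx
    have h1 := hz ⟨i, i.isLt.trans_le hn⟩
    rw [dif_pos i.isLt] at h1
    rw [← hi]
    exact h1
  have hr1 : A.run (fun x : D => f x) = A.run (fun _ => 0) := hrun _ hfl
  have hr2 : A.run (fun x : D => - f x) = A.run (fun _ => 0) :=
    hrun _ (fun x hx => by rw [hfl x hx, neg_zero])
  rcases le_total (A.run (fun _ => 0)) 0 with hr | hr
  · refine le_iSup₂_of_le f hf (ENNReal.ofReal_le_ofReal ?_)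
    rw [hr1]
    exact le_trans (by linarith) (le_abs_self _)
  · refine le_iSup₂_of_le (fun x => - f x) (neg_mem d D f hf) (ENNReal.ofReal_le_ofReal ?_)
    rw [hr2, integral_neg]
    exact le_trans (by linarith) (neg_le_abs _)

end Pool.Agent.N799.CU
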