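import Pool.Agent.N799.CU.Def

/-!
# CU/EX: existence and uniqueness of the radius (project of helper799, written by helper935)
-/

set_option autoImplicit false

namespace Pool.Agent.N799.CU

open MeasureTheory Finset Filter Pointwise

namespace EX

lemma bp_smul (p : ℝ) (d : ℕ) (r : ℝ) (hr : 0 < r) : Bp p d r = r • Bp p d 1 := by
  ext x
  rw [Set.mem_smul_set_iff_inv_smul_mem₀ hr.ne']
  unfold Bp
  rw [Set.mem_setOf_eq, Set.mem_setOf_eq]
  have : ∀ i, |(r⁻¹ • x) i / 1| ^ p = |x i / r| ^ p := by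
    intro i
    rw [PiLp.smul_apply, smul_eq_mul, div_one, inv_mul_eq_div]
  simp only [this]

lemma bp_open (p : ℝ) (d : ℕ) (hp : 0 < p) : IsOpen (Bp p d 1) := by
  have hc : Continuous fun x : E d => ∑ i, |x i / 1| ^ p := by
    refine continuous_finset_sum _ fun i _ => ?_
    refine Continuous.rpow_const (by fun_prop) fun x => Or.inr hp.le
  exact isOpen_lt hc continuous_const

lemma bp_pos (p : ℝ) (d : ℕ) (hp : 0 < p) : volume (Bp p d 1) ≠ 0 := by
  refine ((bp_open p d hp).measure_pos volume ⟨0, ?_⟩).ne'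
  show ∑ i, |(0 : E d) i / 1| ^ p < 1
  have : ∀ i : Fin d, |(0 : E d) i / 1| ^ p = 0 := by
    intro i
    simp [Real.zero_rpow hp.ne']
  simp only [this, Finset.sum_const_zero]
  norm_num

lemma bp_fin (p : ℝ) (d : ℕ) (hp : 0 < p) : volume (Bp p d 1) ≠ ⊤ := by
  refine (lt_of_le_of_lt (measure_mono ?_)
    (measure_closedBall_lt_top (x := (0 : E d)) (r := Real.sqrt d))).ne
  intro x hx
  have hx' : ∑ i, |x i / 1| ^ p < 1 := hx
  have h1 : ∀ i, |x i| ≤ 1 := by
    intro i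
    by_contra hcon
    push Not at hcon
    have h2 : |x i / 1| ^ p ≤ ∑ i, |x i / 1| ^ p :=
      Finset.single_le_sum (f := fun i => |x i / 1| ^ p)
        (fun j _ => Real.rpow_nonneg (abs_nonneg _) _) (Finset.mem_univ i)
    have h3 : 1 ≤ |x i / 1| ^ p := by
      rw [div_one]
      exact Real.one_le_rpow hcon.le hp.le
    linarith
  rw [mem_closedBall_zero_iff, EuclideanSpace.norm_eq]
  apply Real.sqrt_le_sqrt
  calc ∑ i, ‖x i‖ ^ 2 ≤ ∑ _i : Fin d, (1 : ℝ) := by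
        refine Finset.sum_le_sum fun i _ => ?_
        rw [Real.norm_eq_abs]
        exact pow_le_one₀ (abs_nonneg _) (h1 i)
    _ = d := by simp

end EX

open EX

theorem t_EX : S_EX := by
  intro p d hp hd
  obtain ⟨V, hV⟩ : ∃ V, V = volume (Bp p d 1) := ⟨_, rfl⟩
  have hV0 : V ≠ 0 := by rw [hV]; exact bp_pos p d hp
  have hV1 : V ≠ ⊤ := by rw [hV]; exact bp_fin p d hp
  have hvt : 0 < V.toReal := ENNReal.toReal_pos hV0 hV1
  have hvol : ∀ r : ℝ, 0 < r → volume (Bp p d r) = ENNReal.ofReal (r ^ d * V.toReal) := by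
    intro r hr
    rw [bp_smul p d r hr, Measure.addHaar_smul, ← hV, finrank_euclideanSpace_fin,
      abs_of_pos (pow_pos hr d), ENNReal.ofReal_mul (pow_pos hr d).le, ENNReal.ofReal_toReal hV1]
  have hd0 : d ≠ 0 := by omega
  have hone : ∀ r : ℝ, 0 < r → (volume (Bp p d r) = 1 ↔ r ^ d = V.toReal⁻¹) := by
    intro r hr
    rw [hvol r hr, ENNReal.ofReal_eq_one, ← eq_div_iff hvt.ne', one_div]
  refine ⟨(V.toReal⁻¹) ^ ((d : ℝ)⁻¹), ⟨?_, ?_⟩, ?_⟩
  · exact Real.rpow_pos_of_pos (inv_pos.2 hvt) _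
  · rw [hone _ (Real.rpow_pos_of_pos (inv_pos.2 hvt) _)]
    exact Real.rpow_inv_natCast_pow (inv_pos.2 hvt).le hd0
  · rintro s ⟨hs, hs1⟩
    rw [hone s hs] at hs1
    rw [← hs1]
    exact (Real.pow_rpow_inv_natCast hs.le hd0).symm

end Pool.Agent.N799.CU
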