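import Pool.Agent.N799.CU.Def

/-!
# Assembly of the fooling function (project CU of helper799, part FOOL, helper255)
-/

set_option autoImplicit false

namespace Pool.Agent.N799.CU

open MeasureTheory Finset Filter

theorem fool_geom (hHULL : S_HULL) {d : ℕ} {ε δ a₀ : ℝ} (hε : 0 < ε) (hδ : 0 < δ)
    (hδ1 : δ ≤ 1 / 60) (ha₀ : 0 ≤ a₀) (hsum : 2 * ε + 2 * δ * √(a₀ + 2 * ε) ≤ 1 / 3600)
    (P : Finset (E d)) (hP : ∀ z ∈ P, ‖z‖ ^ 2 ≤ (a₀ + 2 * ε) * d) (x : E d)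
    (hx1 : a₀ * d ≤ ‖x‖ ^ 2) (hx2 : ‖x‖ ^ 2 < (a₀ + ε) * d)
    (hx : ∀ z ∈ P, √d / 30 < ‖x - z‖) :
    ∀ w ∈ Metric.cthickening (δ * √d / 2) (convexHull ℝ (P : Set (E d))),
      δ * √d / 2 ≤ dist x w := by
  have hd0 : (0 : ℝ) ≤ d := Nat.cast_nonneg d
  have hsd : 0 ≤ √(d : ℝ) := Real.sqrt_nonneg _
  have hdd : √(d : ℝ) * √(d : ℝ) = d := Real.mul_self_sqrt hd0
  have key : ∀ y ∈ convexHull ℝ (P : Set (E d)), δ * √d < ‖x - y‖ := by
    intro y hy
    by_contra hcon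
    push Not at hcon
    obtain ⟨z, hz, hxz⟩ := hHULL d P x y (a₀ * d) ((a₀ + 2 * ε) * d) (δ * √d) (by positivity)
      (by positivity) hP hx1 (by nlinarith) hy hcon
    have h1 := hx z hz
    have h2 : (a₀ + 2 * ε) * (d : ℝ) - a₀ * d + 2 * (δ * √d) * √((a₀ + 2 * ε) * d) =
        (2 * ε + 2 * δ * √(a₀ + 2 * ε)) * d := by
      rw [Real.sqrt_mul (by positivity)]
      linear_combination (2 * δ * √(a₀ + 2 * ε)) * hdd
    rw [h2] at hxz
    have h3 : √((2 * ε + 2 * δ * √(a₀ + 2 * ε)) * d) ≤ √d / 60 := by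
      apply Real.sqrt_le_iff.2
      constructor
      · positivity
      · calc (2 * ε + 2 * δ * √(a₀ + 2 * ε)) * (d : ℝ) ≤ 1 / 3600 * d :=
              mul_le_mul_of_nonneg_right hsum hd0
          _ = (√d / 60) ^ 2 := by
              rw [div_pow, Real.sq_sqrt hd0]
              ring
    have h4 : δ * √d ≤ 1 / 60 * √d := mul_le_mul_of_nonneg_right hδ1 hsd
    linarith
  intro w hw
  have hc : IsCompact (convexHull ℝ (P : Set (E d))) := P.finite_toSet.isCompact_convexHull ℝ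
  rw [hc.cthickening_eq_biUnion_closedBall (by positivity), Set.mem_iUnion₂] at hw
  obtain ⟨y, hy, hwy⟩ := hw
  rw [Metric.mem_closedBall] at hwy
  have h1 := key y hy
  rw [← dist_eq_norm] at h1
  have h2 := dist_triangle x w y
  linarith

theorem fool_lower {d : ℕ} (hd : 1 ≤ d) {ε δ a₀ : ℝ} (hε : 0 < ε) (hδ : 0 < δ)
    (K : Set (E d)) (hK : K.Nonempty) (x : E d) (hx2 : ‖x‖ ^ 2 < (a₀ + ε) * d)
    (hx : ∀ w ∈ K, δ * √d / 2 ≤ dist x w) :
    (ε * δ / 4) ^ 2 ≤ Fn d (a₀ + 3 * ε / 2) K x := by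
  have hd1 : (0 : ℝ) < d := by exact_mod_cast hd
  have h1 : ε / 2 ≤ max 0 (a₀ + 3 * ε / 2 - ‖x‖ ^ 2 / d) := by
    refine le_trans ?_ (le_max_right _ _)
    have : ‖x‖ ^ 2 / d < a₀ + ε := by rwa [div_lt_iff₀ hd1]
    linarith
  have h2 : δ * √d / 2 ≤ Metric.infDist x K := (Metric.le_infDist hK).2 fun {y} hy => hx y hy
  have h3 : (ε / 2) ^ 2 ≤ max 0 (a₀ + 3 * ε / 2 - ‖x‖ ^ 2 / d) ^ 2 :=
    pow_le_pow_left₀ (by positivity) h1 2
  have h4 : (δ / 2) ^ 2 ≤ Metric.infDist x K ^ 2 / d := by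
    rw [le_div_iff₀ hd1]
    calc (δ / 2) ^ 2 * d = (δ * √d / 2) ^ 2 := by
          rw [div_pow, div_pow, mul_pow, Real.sq_sqrt hd1.le]
          ring
      _ ≤ _ := pow_le_pow_left₀ (by positivity) h2 2
  unfold Fn
  calc (ε * δ / 4) ^ 2 = (ε / 2) ^ 2 * (δ / 2) ^ 2 := by ring
    _ ≤ _ := mul_le_mul h3 h4 (by positivity) (by positivity)

theorem fool_zero {d : ℕ} {T : ℝ} {K : Set (E d)} {x : E d} (h : x ∈ K) : Fn d T K x = 0 := by
  unfold Fn
  rw [Metric.infDist_zero_of_mem h]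
  simp

theorem fool_zero' {d : ℕ} {T : ℝ} {K : Set (E d)} {x : E d} (h : T ≤ ‖x‖ ^ 2 / d) :
    Fn d T K x = 0 := by
  unfold Fn
  rw [max_eq_left (by linarith)]
  simp

theorem fool_vol (hBALL : S_BALL) {d : ℕ} (hd : 1 ≤ d) (P : Finset (E d)) {n : ℕ}
    (hP : P.card ≤ n + 1) (hn : n ≤ 2 ^ d) (S : Set (E d)) {v : ℝ} (hv : 0 < v)
    (hS : ENNReal.ofReal v ≤ volume S) (hsmall : 2 * (1 / 2 : ℝ) ^ d ≤ v / 2) :
    ENNReal.ofReal (v / 2) ≤ volume (S \ ⋃ z ∈ P, Metric.closedBall z (√d / 30)) := by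
  set U := ⋃ z ∈ P, Metric.closedBall z (√(d : ℝ) / 30) with hU
  have h1 : volume U ≤ ENNReal.ofReal (v / 2) := by
    calc volume U ≤ ∑ z ∈ P, volume (Metric.closedBall z (√(d : ℝ) / 30)) :=
          measure_biUnion_finset_le _ _
      _ ≤ ∑ _z ∈ P, ENNReal.ofReal ((1 / 4) ^ d) := Finset.sum_le_sum fun z _ => hBALL d z hd
      _ = ENNReal.ofReal (P.card * (1 / 4) ^ d) := by
          rw [Finset.sum_const, nsmul_eq_mul, ENNReal.ofReal_mul (Nat.cast_nonneg _),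
            ENNReal.ofReal_natCast]
      _ ≤ ENNReal.ofReal (v / 2) := by
          refine ENNReal.ofReal_le_ofReal (le_trans ?_ hsmall)
          have h2 : (P.card : ℝ) ≤ 2 * 2 ^ d := by
            have h3 : P.card ≤ 2 * 2 ^ d := by
              have : 1 ≤ 2 ^ d := Nat.one_le_two_pow
              omega
            exact_mod_cast h3
          calc (P.card : ℝ) * (1 / 4) ^ d ≤ (2 * 2 ^ d) * (1 / 4) ^ d :=
                mul_le_mul_of_nonneg_right h2 (by positivity)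
            _ = 2 * (1 / 2 : ℝ) ^ d := by
                rw [mul_assoc, ← mul_pow]
                norm_num
  have h2 : ENNReal.ofReal v ≤ volume (S \ U) + ENNReal.ofReal (v / 2) := by
    refine hS.trans ?_
    calc volume S ≤ volume ((S \ U) ∪ U) := measure_mono (by
          intro x hx
          by_cases h : x ∈ U
          · exact Or.inr h
          · exact Or.inl ⟨hx, h⟩)
      _ ≤ volume (S \ U) + volume U := measure_union_le _ _
      _ ≤ _ := add_le_add le_rfl h1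
  have h3 : ENNReal.ofReal v = ENNReal.ofReal (v / 2) + ENNReal.ofReal (v / 2) := by
    rw [← ENNReal.ofReal_add (by positivity) (by positivity)]
    congr 1
    ring
  rw [h3] at h2
  exact (ENNReal.add_le_add_iff_right ENNReal.ofReal_ne_top).1 h2

/-- Fooling functions for general domains. -/
theorem t_FOOL (hSHELL : S_SHELL) (hHULL : S_HULL) (hBALL : S_BALL) (hFUN : S_FUN)
    (hMOL : S_MOL) (hHESS : S_HESS) : S_FOOL := by
  classical
  intro C₀ κ hC₀ hκ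
  obtain ⟨A, hA, hF⟩ := hFUN (C₀ + 3) (by linarith)
  -- the constants
  obtain ⟨ε, hεd⟩ : ∃ ε : ℝ, ε = 1 / 14400 := ⟨_, rfl⟩
  have hε : 0 < ε := by rw [hεd]; norm_num
  have hs1 : 1 ≤ √(C₀ + 3) := by
    rw [Real.one_le_sqrt]; linarith
  obtain ⟨δ, hδd⟩ : ∃ δ : ℝ, δ = 1 / (14400 * √(C₀ + 3)) := ⟨_, rfl⟩
  have hδ : 0 < δ := by rw [hδd]; positivity
  have hδ1 : δ ≤ 1 / 60 := by
    rw [hδd]
    apply one_div_le_one_div_of_le (by norm_num)
    linarith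
  have hδs : δ * √(C₀ + 3) = 1 / 14400 := by
    rw [hδd]; field_simp
  have hsum : ∀ a₀ : ℝ, a₀ ≤ C₀ → 2 * ε + 2 * δ * √(a₀ + 2 * ε) ≤ 1 / 3600 := by
    intro a₀ ha
    have h1 : √(a₀ + 2 * ε) ≤ √(C₀ + 3) := by
      apply Real.sqrt_le_sqrt
      rw [hεd]
      linarith
    have h2 : δ * √(a₀ + 2 * ε) ≤ δ * √(C₀ + 3) := mul_le_mul_of_nonneg_left h1 hδ.le
    rw [hδs] at h2
    rw [hεd] at h2 ⊢
    linarith
  obtain ⟨K, hKd⟩ : ∃ K : ℕ, K = ⌊C₀ / ε⌋₊ + 1 := ⟨_, rfl⟩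
  have hK1 : 1 ≤ K := by omega
  have hKC : C₀ < K * ε := by
    rw [← div_lt_iff₀ hε, hKd]
    push_cast
    exact Nat.lt_floor_add_one _
  have hKj : ∀ j : ℕ, j < K → (j : ℝ) * ε ≤ C₀ := by
    intro j hj
    rw [← le_div_iff₀ hε]
    have h1 : j ≤ ⌊C₀ / ε⌋₊ := by omega
    exact (Nat.le_floor_iff (by positivity)).1 h1
  have hK0 : (0 : ℝ) < K := by exact_mod_cast hK1
  obtain ⟨v, hvd⟩ : ∃ v : ℝ, v = κ / K := ⟨_, rfl⟩
  have hv : 0 < v := by rw [hvd]; positivity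
  obtain ⟨β, hβd⟩ : ∃ β : ℝ, β = (ε * δ / 4) ^ 2 := ⟨_, rfl⟩
  have hβ : 0 < β := by rw [hβd]; positivity
  obtain ⟨c, hcd⟩ : ∃ c : ℝ, c = min 1 (1 / A) := ⟨_, rfl⟩
  have hc : 0 < c := by rw [hcd]; positivity
  have hcA : c * A ≤ 1 := by
    have h1 : c ≤ 1 / A := by rw [hcd]; exact min_le_right _ _
    calc c * A ≤ 1 / A * A := mul_le_mul_of_nonneg_right h1 hA.le
      _ = 1 := by field_simp
  obtain ⟨d₀, hd₀⟩ : ∃ d₀ : ℕ, ∀ d ≥ d₀, 2 * (1 / 2 : ℝ) ^ d ≤ v / 2 := by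
    have h1 : Tendsto (fun d : ℕ => 2 * (1 / 2 : ℝ) ^ d) atTop (nhds (2 * 0)) :=
      (tendsto_pow_atTop_nhds_zero_of_lt_one (by norm_num) (by norm_num)).const_mul 2
    rw [mul_zero] at h1
    have h2 := h1.eventually (ge_mem_nhds (show (0 : ℝ) < v / 2 by positivity))
    exact eventually_atTop.1 h2
  refine ⟨c * β * v / 8, by positivity, max d₀ 1, ?_⟩
  intro d hd D hDo hD1 hvol n pts hn
  have hd1 : 1 ≤ d := le_trans (le_max_right _ _) hd
  have hdr : (1 : ℝ) ≤ d := by exact_mod_cast hd1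
  have hd0 : (0 : ℝ) < d := by linarith
  have hsd1 : 1 ≤ √(d : ℝ) := by rw [Real.one_le_sqrt]; exact hdr
  have hsmall := hd₀ d (le_trans (le_max_left _ _) hd)
  obtain ⟨j, hj, hS⟩ := hSHELL d D C₀ κ ε K hd1 hDo.measurableSet hε hK1 hKC hκ hvol
  obtain ⟨a₀, ha₀d⟩ : ∃ a₀ : ℝ, a₀ = j * ε := ⟨_, rfl⟩
  have ha₀ : 0 ≤ a₀ := by rw [ha₀d]; positivity
  have ha₀C : a₀ ≤ C₀ := by rw [ha₀d]; exact hKj j hj
  set S := D ∩ {x : E d | j * ε * d ≤ ‖x‖ ^ 2 ∧ ‖x‖ ^ 2 < (j + 1) * ε * d} with hSd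
  have hSm : MeasurableSet S := by
    refine hDo.measurableSet.inter ?_
    refine MeasurableSet.inter ?_ ?_
    · exact measurableSet_le measurable_const (measurable_norm.pow_const 2)
    · exact measurableSet_lt (measurable_norm.pow_const 2) measurable_const
  -- the points
  set P : Finset (E d) := insert 0 ((univ.filter
    fun i => ‖pts i‖ ^ 2 < (a₀ + 2 * ε) * d).image pts) with hPd
  have hPc : P.card ≤ n + 1 := by
    refine (Finset.card_insert_le _ _).trans ?_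
    refine Nat.add_le_add_right ?_ 1
    refine Finset.card_image_le.trans ((Finset.card_filter_le _ _).trans ?_)
    rw [Finset.card_univ, Fintype.card_fin]
  have hPb : ∀ z ∈ P, ‖z‖ ^ 2 ≤ (a₀ + 2 * ε) * d := by
    intro z hz
    rw [hPd, Finset.mem_insert, Finset.mem_image] at hz
    rcases hz with rfl | ⟨i, hi, rfl⟩
    · rw [norm_zero, zero_pow two_ne_zero]
      positivity
    · exact (Finset.mem_filter.1 hi).2.le
  set K' := Metric.cthickening (δ * √d / 2) (convexHull ℝ (P : Set (E d))) with hK'd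
  have h0P : (0 : E d) ∈ convexHull ℝ (P : Set (E d)) :=
    subset_convexHull ℝ _ (Finset.mem_coe.2 (Finset.mem_insert_self _ _))
  have h0K : (0 : E d) ∈ K' := Metric.self_subset_cthickening _ h0P
  have hK'c : IsClosed K' := Metric.isClosed_cthickening
  have hK'conv : Convex ℝ K' := (convex_convexHull ℝ _).cthickening _
  obtain ⟨hF1, hF2, hF3⟩ := hF d (a₀ + 3 * ε / 2) K' hd1 (by positivity)
    (by rw [hεd]; linarith) hK'c hK'conv h0K
  -- the radius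
  have hsq : √(a₀ + 3 * ε / 2) < √(a₀ + 2 * ε) :=
    Real.sqrt_lt_sqrt (by positivity) (by linarith)
  obtain ⟨τ, hτd⟩ : ∃ τ : ℝ, τ = min 1 (min (δ * √d / 2)
    (min (√d * (√(a₀ + 2 * ε) - √(a₀ + 3 * ε / 2))) (β / (2 * A)))) := ⟨_, rfl⟩
  have hτ : 0 < τ := by
    rw [hτd]
    refine lt_min one_pos (lt_min (by positivity) (lt_min ?_ (by positivity)))
    exact mul_pos (by linarith) (by linarith)
  have hτ1 : τ ≤ 1 := by rw [hτd]; exact min_le_left _ _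
  have hτ2 : τ ≤ δ * √d / 2 := by
    rw [hτd]; exact (min_le_right _ _).trans (min_le_left _ _)
  have hτ3 : τ ≤ √d * (√(a₀ + 2 * ε) - √(a₀ + 3 * ε / 2)) := by
    rw [hτd]; exact (min_le_right _ _).trans ((min_le_right _ _).trans (min_le_left _ _))
  have hτ4 : τ ≤ β / (2 * A) := by
    rw [hτd]; exact (min_le_right _ _).trans ((min_le_right _ _).trans (min_le_right _ _))
  have hAd : 0 ≤ A * (√(d : ℝ))⁻¹ := by positivity
  have hAd2 : 0 ≤ A * ((d : ℝ))⁻¹ := by positivity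
  have hAd1 : A * (√(d : ℝ))⁻¹ ≤ A := by
    have : (√(d : ℝ))⁻¹ ≤ 1 := inv_le_one_of_one_le₀ hsd1
    nlinarith
  obtain ⟨f₀, g1, g2, g3, g4, g5, g6⟩ := hMOL d (Fn d (a₀ + 3 * ε / 2) K') A
    (A * (√(d : ℝ))⁻¹) (A * (d : ℝ)⁻¹) τ hAd hAd2 hτ hτ1 hF1 hF2 hF3
  obtain ⟨e1, e2⟩ := hHESS d f₀ (A * (√(d : ℝ))⁻¹) (A * (d : ℝ)⁻¹) hAd hAd2 g1 g3 g4
  -- the zeros
  have hzero : ∀ i, f₀ (pts i) = 0 := by
    intro i
    apply g6
    intro y hy
    by_cases hi : ‖pts i‖ ^ 2 < (a₀ + 2 * ε) * d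
    · apply fool_zero
      refine Metric.mem_cthickening_of_dist_le y (pts i) _ _ ?_ ?_
      · apply subset_convexHull ℝ _
        rw [Finset.mem_coe, hPd, Finset.mem_insert]
        exact Or.inr (Finset.mem_image_of_mem _ (Finset.mem_filter.2 ⟨mem_univ _, hi⟩))
      · rw [dist_eq_norm]
        exact hy.trans hτ2
    · apply fool_zero'
      rw [not_lt] at hi
      have h1 : √d * √(a₀ + 2 * ε) ≤ ‖pts i‖ := by
        rw [← Real.sqrt_mul hd0.le]
        apply Real.sqrt_le_iff.2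
        refine ⟨norm_nonneg _, ?_⟩
        rw [mul_comm]
        exact hi
      have h2 : ‖pts i‖ ≤ ‖y‖ + ‖y - pts i‖ := by
        have := norm_sub_le y (y - pts i)
        rwa [sub_sub_cancel] at this
      have h3 : √d * √(a₀ + 3 * ε / 2) ≤ ‖y‖ := by linarith
      rw [le_div_iff₀ hd0]
      calc (a₀ + 3 * ε / 2) * d = (√d * √(a₀ + 3 * ε / 2)) ^ 2 := by
            rw [mul_pow, Real.sq_sqrt hd0.le, Real.sq_sqrt (by positivity)]
            ring
        _ ≤ ‖y‖ ^ 2 := pow_le_pow_left₀ (by positivity) h3 2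
  -- the good set
  set U := ⋃ z ∈ P, Metric.closedBall z (√(d : ℝ) / 30) with hU
  have hUm : MeasurableSet U :=
    Finset.measurableSet_biUnion _ fun z _ => Metric.isClosed_closedBall.measurableSet
  have hG := fool_vol hBALL hd1 P hPc hn S hv (by rw [hvd]; exact hS) hsmall
  have hGb : ∀ x ∈ S \ U, β / 2 ≤ f₀ x := by
    rintro x ⟨⟨hxD, hx1, hx2⟩, hxU⟩
    have hx1' : a₀ * d ≤ ‖x‖ ^ 2 := by rw [ha₀d]; exact hx1
    have hx2' : ‖x‖ ^ 2 < (a₀ + ε) * d := by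
      refine lt_of_lt_of_le hx2 (le_of_eq ?_)
      rw [ha₀d]
      ring
    have hxz : ∀ z ∈ P, √(d : ℝ) / 30 < ‖x - z‖ := by
      intro z hz
      by_contra hcon
      rw [not_lt] at hcon
      apply hxU
      rw [hU, Set.mem_iUnion₂]
      exact ⟨z, hz, by rw [Metric.mem_closedBall, dist_eq_norm]; exact hcon⟩
    have h1 := fool_lower hd1 hε hδ K' ⟨0, h0K⟩ x hx2'
      (fool_geom hHULL hε hδ hδ1 ha₀ (hsum a₀ ha₀C) P hPb x hx1' hx2' hxz)
    rw [← hβd] at h1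
    have h2 := abs_le.1 (g5 x)
    have h3 : A * (√(d : ℝ))⁻¹ * τ ≤ β / 2 := by
      calc A * (√(d : ℝ))⁻¹ * τ ≤ A * (β / (2 * A)) :=
            mul_le_mul hAd1 hτ4 hτ.le hA.le
        _ = β / 2 := by field_simp
    linarith [h2.1]
  -- the function
  have hfin : volume D ≠ ⊤ := by rw [hD1]; exact ENNReal.one_ne_top
  have hint : IntegrableOn f₀ D := by
    refine Measure.integrableOn_of_bounded (M := A) hfin g1.continuous.aestronglyMeasurable ?_
    exact Eventually.of_forall fun x => by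
      rw [Real.norm_eq_abs, abs_of_nonneg (g2 x).1]
      exact (g2 x).2
  have hGD : S \ U ⊆ D := fun x hx => hx.1.1
  have hGm : MeasurableSet (S \ U) := hSm.diff hUm
  have hGfin : volume (S \ U) ≠ ⊤ := ne_top_of_le_ne_top hfin (measure_mono hGD)
  have hGr : v / 2 ≤ volume.real (S \ U) := by
    have := ENNReal.toReal_mono hGfin hG
    rwa [ENNReal.toReal_ofReal (by positivity)] at this
  have hI1 : β / 2 * volume.real (S \ U) ≤ ∫ x in S \ U, f₀ x :=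
    setIntegral_ge_of_const_le_real hGm hGfin hGb (hint.mono_set hGD)
  have hI2 : ∫ x in S \ U, f₀ x ≤ ∫ x in D, f₀ x :=
    setIntegral_mono_set hint (Eventually.of_forall fun x => (g2 x).1) hGD.eventuallyLE
  have hI3 : β / 2 * (v / 2) ≤ ∫ x in D, f₀ x :=
    (mul_le_mul_of_nonneg_left hGr (by positivity)).trans (hI1.trans hI2)
  refine ⟨fun x => c * f₀ x, ⟨?_, ?_, ?_, ?_⟩, fun i => ?_, ?_⟩
  · exact (contDiff_const.mul g1).contDiffOn
  · intro x _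
    rw [abs_of_nonneg (mul_nonneg hc.le (g2 x).1)]
    exact (mul_le_mul_of_nonneg_left (g2 x).2 hc.le).trans hcA
  · intro x _ y _
    rw [← mul_sub, abs_mul, abs_of_pos hc]
    calc c * |f₀ x - f₀ y| ≤ c * (A * (√(d : ℝ))⁻¹ * ‖x - y‖) :=
          mul_le_mul_of_nonneg_left (e1 x y) hc.le
      _ = (c * A) * ((√(d : ℝ))⁻¹ * ‖x - y‖) := by ring
      _ ≤ 1 * ((√(d : ℝ))⁻¹ * ‖x - y‖) := mul_le_mul_of_nonneg_right hcA (by positivity)
      _ = _ := one_mul _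
  · intro Θ hΘ x _ y _
    have hdf : ∀ z, fderiv ℝ (fun x => c * f₀ x) z Θ = c * fderiv ℝ f₀ z Θ := by
      intro z
      rw [fderiv_const_mul (g1.differentiable (by norm_num) z)]
      rfl
    rw [hdf, hdf, ← mul_sub, abs_mul, abs_of_pos hc]
    calc c * |fderiv ℝ f₀ x Θ - fderiv ℝ f₀ y Θ| ≤ c * (A * (d : ℝ)⁻¹ * ‖x - y‖) :=
          mul_le_mul_of_nonneg_left (e2 Θ hΘ x y) hc.le
      _ = (c * A) * ((d : ℝ)⁻¹ * ‖x - y‖) := by ring
      _ ≤ 1 * ((d : ℝ)⁻¹ * ‖x - y‖) := mul_le_mul_of_nonneg_right hcA (by positivity)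
      _ = _ := one_mul _
  · show c * f₀ (pts i) = 0
    rw [hzero i, mul_zero]
  · have hI4 : ∫ x in D, c * f₀ x = c * ∫ x in D, f₀ x := integral_const_mul _ _
    rw [hI4]
    have h1 : c * (β / 2 * (v / 2)) ≤ c * ∫ x in D, f₀ x := mul_le_mul_of_nonneg_left hI3 hc.le
    have h2 : 0 < c * β * v := by positivity
    nlinarith

end Pool.Agent.N799.CU
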