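import Pool.Agent.N799.CU.Def

/-!
# FUN: first and second differences of `(T - |x|² / d)₊² dist (x, K)² / d`
Project CU (helper799), part FUN by helper655.
-/

set_option autoImplicit false

namespace Pool.Agent.N799.CU

namespace FUN

theorem phi1 {T s t : ℝ} (hT : 0 ≤ T) (hs : 0 ≤ s) (ht : 0 ≤ t) :
    |max 0 (T - s) ^ 2 - max 0 (T - t) ^ 2| ≤ 2 * T * |s - t| := by
  have h1 : |max 0 (T - s) - max 0 (T - t)| ≤ |s - t| := by
    have a1 := le_abs_self (s - t)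
    have a2 := neg_abs_le (s - t)
    have a3 := abs_nonneg (s - t)
    rw [abs_le]
    rcases le_total 0 (T - s) with h1 | h1 <;> rcases le_total 0 (T - t) with h2 | h2 <;>
      simp only [max_eq_left, max_eq_right, h1, h2] <;> constructor <;> linarith
  have h2 : 0 ≤ max 0 (T - s) := le_max_left _ _
  have h3 : 0 ≤ max 0 (T - t) := le_max_left _ _
  have h4 : max 0 (T - s) ≤ T := max_le hT (by linarith)
  have h5 : max 0 (T - t) ≤ T := max_le hT (by linarith)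
  have h6 : max 0 (T - s) ^ 2 - max 0 (T - t) ^ 2 =
      (max 0 (T - s) + max 0 (T - t)) * (max 0 (T - s) - max 0 (T - t)) := by ring
  rw [h6, abs_mul, abs_of_nonneg (add_nonneg h2 h3)]
  exact mul_le_mul (by linarith) h1 (abs_nonneg _) (by linarith)

theorem phi2 (T s t : ℝ) :
    |max 0 (T - s) ^ 2 - max 0 (T - t) ^ 2 + 2 * max 0 (T - t) * (s - t)| ≤ (s - t) ^ 2 := by
  rw [abs_le]
  rcases le_total 0 (T - s) with h1 | h1 <;> rcases le_total 0 (T - t) with h2 | h2 <;>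
    simp only [max_eq_left, max_eq_right, h1, h2] <;> constructor <;>
    nlinarith [sq_nonneg (s - t), sq_nonneg (T - s), sq_nonneg (T - t)]

/-- the product rule for second differences -/
theorem prod2 {u up um g gp gm H U U1 U2 V V1 V2 : ℝ} (hU : |u| ≤ U) (hU1p : |up - u| ≤ U1 * H)
    (hU1m : |um - u| ≤ U1 * H) (hU2 : |up + um - 2 * u| ≤ U2 * H ^ 2) (hV : |g| ≤ V)
    (hV1p : |gp - g| ≤ V1 * H) (hV1m : |gm - g| ≤ V1 * H) (hV2 : |gp + gm - 2 * g| ≤ V2 * H ^ 2)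
    (hH : 0 ≤ H) (h1 : 0 ≤ U1) :
    |up * gp + um * gm - 2 * (u * g)| ≤ (U * V2 + V * U2 + 2 * (U1 * V1)) * H ^ 2 := by
  have e : up * gp + um * gm - 2 * (u * g) = u * (gp + gm - 2 * g) + g * (up + um - 2 * u) +
      (up - u) * (gp - g) + (um - u) * (gm - g) := by ring
  rw [e]
  have a1 : |u * (gp + gm - 2 * g)| ≤ U * (V2 * H ^ 2) := by
    rw [abs_mul]
    exact mul_le_mul hU hV2 (abs_nonneg _) ((abs_nonneg _).trans hU)
  have a2 : |g * (up + um - 2 * u)| ≤ V * (U2 * H ^ 2) := by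
    rw [abs_mul]
    exact mul_le_mul hV hU2 (abs_nonneg _) ((abs_nonneg _).trans hV)
  have a3 : |(up - u) * (gp - g)| ≤ (U1 * H) * (V1 * H) := by
    rw [abs_mul]
    exact mul_le_mul hU1p hV1p (abs_nonneg _) (by positivity)
  have a4 : |(um - u) * (gm - g)| ≤ (U1 * H) * (V1 * H) := by
    rw [abs_mul]
    exact mul_le_mul hU1m hV1m (abs_nonneg _) (by positivity)
  calc _ ≤ |u * (gp + gm - 2 * g)| + |g * (up + um - 2 * u)| + |(up - u) * (gp - g)| +
        |(um - u) * (gm - g)| := by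
        refine (abs_add_le _ _).trans (add_le_add ?_ le_rfl)
        refine (abs_add_le _ _).trans (add_le_add ?_ le_rfl)
        exact abs_add_le _ _
    _ ≤ U * (V2 * H ^ 2) + V * (U2 * H ^ 2) + (U1 * H) * (V1 * H) + (U1 * H) * (V1 * H) := by
        linarith
    _ = _ := by ring

/-- the product rule for first differences -/
theorem prod1 {u up g gp H U U1 V V1 : ℝ} (hU : |up| ≤ U) (hU1p : |up - u| ≤ U1 * H)
    (hV : |g| ≤ V) (hV1p : |gp - g| ≤ V1 * H) :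
    |up * gp - u * g| ≤ (U * V1 + V * U1) * H := by
  have e : up * gp - u * g = up * (gp - g) + g * (up - u) := by ring
  rw [e]
  have a1 : |up * (gp - g)| ≤ U * (V1 * H) := by
    rw [abs_mul]
    exact mul_le_mul hU hV1p (abs_nonneg _) ((abs_nonneg _).trans hU)
  have a2 : |g * (up - u)| ≤ V * (U1 * H) := by
    rw [abs_mul]
    exact mul_le_mul hV hU1p (abs_nonneg _) ((abs_nonneg _).trans hV)
  calc _ ≤ |up * (gp - g)| + |g * (up - u)| := abs_add_le _ _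
    _ ≤ U * (V1 * H) + V * (U1 * H) := add_le_add a1 a2
    _ = _ := by ring

section geo

variable {d : ℕ} {K : Set (E d)}

theorem inf_le (h0 : (0 : E d) ∈ K) (x : E d) : Metric.infDist x K ≤ ‖x‖ := by
  have := Metric.infDist_le_dist_of_mem (x := x) h0
  rwa [dist_zero_right] at this

theorem inf_lip (x h : E d) : |Metric.infDist (x + h) K - Metric.infDist x K| ≤ ‖h‖ := by
  have h1 := Metric.infDist_le_infDist_add_dist (s := K) (x := x + h) (y := x)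
  have h2 := Metric.infDist_le_infDist_add_dist (s := K) (x := x) (y := x + h)
  have h3 : dist (x + h) x = ‖h‖ := by rw [dist_eq_norm]; congr 1; abel
  rw [dist_comm x, h3] at h2
  rw [h3] at h1
  rw [abs_le]
  constructor <;> linarith

theorem inf_mid (hK : IsClosed K) (hc : Convex ℝ K) (h0 : (0 : E d) ∈ K) (x h : E d) :
    2 * Metric.infDist x K ≤ Metric.infDist (x + h) K + Metric.infDist (x - h) K := by
  obtain ⟨P, hP, hP'⟩ := hK.exists_infDist_eq_dist ⟨0, h0⟩ (x + h)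
  obtain ⟨Q, hQ, hQ'⟩ := hK.exists_infDist_eq_dist ⟨0, h0⟩ (x - h)
  have hM : (1 / 2 : ℝ) • P + (1 / 2 : ℝ) • Q ∈ K :=
    hc hP hQ (by norm_num) (by norm_num) (by norm_num)
  have h1 := Metric.infDist_le_dist_of_mem (x := x) hM
  rw [hP', hQ', dist_eq_norm, dist_eq_norm]
  rw [dist_eq_norm] at h1
  have e : x - ((1 / 2 : ℝ) • P + (1 / 2 : ℝ) • Q) =
      (1 / 2 : ℝ) • ((x + h - P) + (x - h - Q)) := by module
  rw [e, norm_smul] at h1
  have h2 := norm_add_le (x + h - P) (x - h - Q)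
  have h3 : ‖(1 / 2 : ℝ)‖ = 1 / 2 := by norm_num
  rw [h3] at h1
  linarith

theorem par (x h : E d) : ‖x + h‖ ^ 2 + ‖x - h‖ ^ 2 = 2 * ‖x‖ ^ 2 + 2 * ‖h‖ ^ 2 := by
  have := parallelogram_law_with_norm ℝ x h
  linarith

theorem inf_sq (hK : IsClosed K) (hc : Convex ℝ K) (h0 : (0 : E d) ∈ K) (x h : E d) :
    |Metric.infDist (x + h) K ^ 2 + Metric.infDist (x - h) K ^ 2 - 2 * Metric.infDist x K ^ 2| ≤
      2 * ‖h‖ ^ 2 := by
  have n0 : 0 ≤ Metric.infDist x K := Metric.infDist_nonneg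
  have n1 : 0 ≤ Metric.infDist (x + h) K := Metric.infDist_nonneg
  have n2 : 0 ≤ Metric.infDist (x - h) K := Metric.infDist_nonneg
  rw [abs_le]
  constructor
  · have h1 := inf_mid hK hc h0 x h
    have h2 : (2 * Metric.infDist x K) ^ 2 ≤
        (Metric.infDist (x + h) K + Metric.infDist (x - h) K) ^ 2 := by
      apply pow_le_pow_left₀ _ h1
      positivity
    nlinarith [sq_nonneg (Metric.infDist (x + h) K - Metric.infDist (x - h) K), sq_nonneg ‖h‖]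
  · obtain ⟨P, hP, hP'⟩ := hK.exists_infDist_eq_dist ⟨0, h0⟩ x
    have h1 := Metric.infDist_le_dist_of_mem (x := x + h) hP
    have h2 := Metric.infDist_le_dist_of_mem (x := x - h) hP
    rw [dist_eq_norm] at h1 h2 hP'
    have h3 := par (x - P) h
    have e1 : x - P + h = x + h - P := by abel
    have e2 : x - P - h = x - h - P := by abel
    rw [e1, e2, ← hP'] at h3
    have h4 := pow_le_pow_left₀ n1 h1 2
    have h5 := pow_le_pow_left₀ n2 h2 2
    linarith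

end geo

/-- the scalar data of a point and of a translate: `s = √d`, `η = ‖h‖`, `X = ‖x‖`, `Y = ‖x + h‖` -/
theorem scal {s η X Y T T₀ : ℝ} (hs : 1 ≤ s) (_hη : 0 ≤ η) (hη1 : η ≤ 1) (hX : 0 ≤ X) (hY : 0 ≤ Y)
    (hXY : |Y - X| ≤ η) (hT : 0 ≤ T) (hT0 : T ≤ T₀) (hR : X / s ≤ √T₀ + 1) :
    |max 0 (T - Y ^ 2 / s ^ 2) ^ 2 - max 0 (T - X ^ 2 / s ^ 2) ^ 2| ≤
      2 * T₀ * (2 * (√T₀ + 1) + 1) * (s⁻¹ * η) ∧
    |Y ^ 2 / s ^ 2 - X ^ 2 / s ^ 2| ≤ (2 * (√T₀ + 1) + 1) * (s⁻¹ * η) := by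
  have hs0 : 0 < s := by linarith
  have hi : s⁻¹ ≤ 1 := inv_le_one_of_one_le₀ hs
  have hi0 : 0 < s⁻¹ := inv_pos.2 hs0
  have h2 : |Y ^ 2 / s ^ 2 - X ^ 2 / s ^ 2| ≤ (2 * (√T₀ + 1) + 1) * (s⁻¹ * η) := by
    have e : Y ^ 2 / s ^ 2 - X ^ 2 / s ^ 2 = (Y / s + X / s) * (s⁻¹ * (Y - X)) := by
      field_simp
      ring
    have h3 : Y / s ≤ √T₀ + 1 + 1 := by
      have h4 : Y ≤ X + η := by have := (abs_le.1 hXY).2; linarith
      have h5 : Y / s ≤ (X + η) / s := by gcongr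
      have h6 : η / s ≤ 1 := by
        rw [div_le_one hs0]; linarith
      rw [add_div] at h5
      linarith
    rw [e, abs_mul, abs_mul, abs_of_nonneg hi0.le, abs_of_nonneg (by positivity)]
    have h7 : s⁻¹ * |Y - X| ≤ s⁻¹ * η := by gcongr
    refine mul_le_mul (by linarith) h7 (by positivity) (by positivity)
  refine ⟨?_, h2⟩
  have h8 := phi1 (T := T) (s := Y ^ 2 / s ^ 2) (t := X ^ 2 / s ^ 2) hT (by positivity)
    (by positivity)
  refine h8.trans ?_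
  have h9 : 2 * T * |Y ^ 2 / s ^ 2 - X ^ 2 / s ^ 2| ≤
      2 * T₀ * ((2 * (√T₀ + 1) + 1) * (s⁻¹ * η)) :=
    mul_le_mul (by linarith) h2 (abs_nonneg _) (by linarith)
  linarith

end FUN

open FUN

theorem t_FUN : S_FUN := by
  intro T₀ hT₀
  obtain ⟨R, hR⟩ : ∃ R, R = √T₀ + 1 := ⟨_, rfl⟩
  have hR1 : 1 ≤ R := by rw [hR]; linarith [Real.sqrt_nonneg T₀]
  have hR0 : 0 < R := by linarith
  obtain ⟨c1, hc1⟩ : ∃ c1, c1 = 2 * T₀ * (2 * R + 1) := ⟨_, rfl⟩
  obtain ⟨c2, hc2⟩ : ∃ c2, c2 = 2 * (2 * R + 1) ^ 2 + 4 * T₀ := ⟨_, rfl⟩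
  obtain ⟨c3, hc3⟩ : ∃ c3, c3 = 2 * R + 1 := ⟨_, rfl⟩
  have c10 : 0 < c1 := by rw [hc1]; positivity
  have c20 : 0 < c2 := by rw [hc2]; positivity
  have c30 : 0 < c3 := by rw [hc3]; positivity
  refine ⟨T₀ ^ 3 + (T₀ ^ 2 * c3 + R ^ 2 * c1) + (T₀ ^ 2 * 2 + R ^ 2 * c2 + 2 * (c1 * c3)),
    by positivity, ?_⟩
  intro d T K hd hT hTT hK hcK h0
  have hdR : (1 : ℝ) ≤ d := by exact_mod_cast hd
  obtain ⟨s, hs⟩ : ∃ s, s = √(d : ℝ) := ⟨_, rfl⟩
  have hs1 : 1 ≤ s := by rw [hs]; exact Real.one_le_sqrt.2 hdR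
  have hs0 : 0 < s := by linarith
  have hs2 : (d : ℝ) = s ^ 2 := by rw [hs, Real.sq_sqrt (by linarith)]
  have hi0 : 0 < s⁻¹ := inv_pos.2 hs0
  have hF : ∀ x : E d, Fn d T K x = max 0 (T - ‖x‖ ^ 2 / s ^ 2) ^ 2 *
      (Metric.infDist x K ^ 2 / s ^ 2) := by
    intro x
    unfold Fn
    rw [hs2]
  have hu0 : ∀ x : E d, 0 ≤ max 0 (T - ‖x‖ ^ 2 / s ^ 2) := fun x => le_max_left _ _
  have huT : ∀ x : E d, max 0 (T - ‖x‖ ^ 2 / s ^ 2) ≤ T := fun x =>
    max_le hT (by have : 0 ≤ ‖x‖ ^ 2 / s ^ 2 := by positivity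
                  linarith)
  have hu2 : ∀ x : E d, |max 0 (T - ‖x‖ ^ 2 / s ^ 2) ^ 2| ≤ T₀ ^ 2 := by
    intro x
    rw [abs_of_nonneg (by positivity)]
    exact pow_le_pow_left₀ (hu0 x) ((huT x).trans hTT) 2
  -- far away the function is zero
  have hzero : ∀ x : E d, √T₀ < ‖x‖ / s → Fn d T K x = 0 := by
    intro x hx
    have h1 : T ≤ ‖x‖ ^ 2 / s ^ 2 := by
      have h2 : (√T₀) ^ 2 ≤ (‖x‖ / s) ^ 2 := pow_le_pow_left₀ (Real.sqrt_nonneg _) hx.le 2
      rw [Real.sq_sqrt hT₀.le, div_pow] at h2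
      linarith
    rw [hF, max_eq_left (by linarith)]
    ring
  -- near points
  have hnear : ∀ x h : E d, ‖h‖ ≤ 1 → Fn d T K (x + h) ≠ 0 → ‖x‖ / s ≤ R := by
    intro x h hh hne
    by_contra hc
    push Not at hc
    apply hne
    apply hzero
    have h1 : ‖x‖ ≤ ‖x + h‖ + ‖h‖ := by
      have := norm_sub_le (x + h) h
      rwa [add_sub_cancel_right] at this
    have h2 : ‖x‖ / s ≤ ‖x + h‖ / s + ‖h‖ / s := by rw [← add_div]; gcongr
    have h3 : ‖h‖ / s ≤ 1 := by rw [div_le_one hs0]; linarith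
    linarith
  have habs : ∀ x h : E d, |‖x + h‖ - ‖x‖| ≤ ‖h‖ := by
    intro x h
    have := abs_norm_sub_norm_le (x + h) x
    rwa [add_sub_cancel_left] at this
  -- bounds for the distance
  have hG : ∀ x : E d, ‖x‖ / s ≤ R → |Metric.infDist x K ^ 2 / s ^ 2| ≤ R ^ 2 := by
    intro x hx
    have n0 : 0 ≤ Metric.infDist x K := Metric.infDist_nonneg
    rw [abs_of_nonneg (by positivity), ← div_pow]
    refine pow_le_pow_left₀ (by positivity) (le_trans ?_ hx) 2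
    have := inf_le h0 x
    gcongr
  have hG1 : ∀ x h : E d, ‖x‖ / s ≤ R → ‖h‖ ≤ 1 →
      |Metric.infDist (x + h) K ^ 2 / s ^ 2 - Metric.infDist x K ^ 2 / s ^ 2| ≤
        c3 * (s⁻¹ * ‖h‖) := by
    intro x h hx hh
    have n0 : 0 ≤ Metric.infDist x K := Metric.infDist_nonneg
    have n1 : 0 ≤ Metric.infDist (x + h) K := Metric.infDist_nonneg
    have e : Metric.infDist (x + h) K ^ 2 / s ^ 2 - Metric.infDist x K ^ 2 / s ^ 2 =
        (Metric.infDist (x + h) K / s + Metric.infDist x K / s) *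
          (s⁻¹ * (Metric.infDist (x + h) K - Metric.infDist x K)) := by
      field_simp
      ring
    have h1 := inf_lip (K := K) x h
    have h2 : Metric.infDist x K / s ≤ R := by
      refine le_trans ?_ hx
      have := inf_le h0 x
      gcongr
    have h3 : Metric.infDist (x + h) K / s ≤ R + 1 := by
      have h4 : Metric.infDist (x + h) K ≤ Metric.infDist x K + ‖h‖ := by
        have := (abs_le.1 h1).2
        linarith
      have h5 : Metric.infDist (x + h) K / s ≤ (Metric.infDist x K + ‖h‖) / s := by gcongr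
      have h6 : ‖h‖ / s ≤ 1 := by rw [div_le_one hs0]; linarith
      rw [add_div] at h5
      linarith
    rw [e, abs_mul, abs_mul, abs_of_nonneg hi0.le, abs_of_nonneg (by positivity)]
    have h7 : s⁻¹ * |Metric.infDist (x + h) K - Metric.infDist x K| ≤ s⁻¹ * ‖h‖ := by gcongr
    exact mul_le_mul (by rw [hc3]; linarith) h7 (by positivity) c30.le
  have hu1 : ∀ x h : E d, ‖x‖ / s ≤ R → ‖h‖ ≤ 1 →
      |max 0 (T - ‖x + h‖ ^ 2 / s ^ 2) ^ 2 - max 0 (T - ‖x‖ ^ 2 / s ^ 2) ^ 2| ≤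
        c1 * (s⁻¹ * ‖h‖) ∧
      |‖x + h‖ ^ 2 / s ^ 2 - ‖x‖ ^ 2 / s ^ 2| ≤ c3 * (s⁻¹ * ‖h‖) := by
    intro x h hx hh
    rw [hR] at hx
    have := scal hs1 (norm_nonneg h) hh (norm_nonneg x) (norm_nonneg (x + h)) (habs x h) hT hTT hx
    rw [← hR] at this
    rw [hc1, hc3]
    exact this
  refine ⟨?_, ?_, ?_⟩
  · intro x
    have n0 : 0 ≤ Metric.infDist x K := Metric.infDist_nonneg
    refine ⟨by rw [hF]; positivity, ?_⟩
    have hle : Fn d T K x ≤ T₀ ^ 3 := by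
      rcases le_total T (‖x‖ ^ 2 / s ^ 2) with h1 | h1
      · rw [hF, max_eq_left (by linarith)]
        have : (0 : ℝ) ^ 2 * (Metric.infDist x K ^ 2 / s ^ 2) = 0 := by ring
        rw [this]
        positivity
      · rw [hF]
        have h2 : Metric.infDist x K ^ 2 / s ^ 2 ≤ T₀ := by
          have h3 := pow_le_pow_left₀ n0 (inf_le h0 x) 2
          have h4 : Metric.infDist x K ^ 2 / s ^ 2 ≤ ‖x‖ ^ 2 / s ^ 2 := by gcongr
          linarith
        have h5 := hu2 x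
        rw [abs_of_nonneg (by positivity)] at h5
        calc _ ≤ T₀ ^ 2 * T₀ := mul_le_mul h5 h2 (by positivity) (by positivity)
          _ = T₀ ^ 3 := by ring
    refine hle.trans ?_
    have : 0 ≤ (T₀ ^ 2 * c3 + R ^ 2 * c1) + (T₀ ^ 2 * 2 + R ^ 2 * c2 + 2 * (c1 * c3)) := by
      positivity
    linarith
  · intro x h hh
    have hpos : 0 ≤ s⁻¹ * ‖h‖ := by positivity
    rw [← hs]
    have hfin : |Fn d T K (x + h) - Fn d T K x| ≤ (T₀ ^ 2 * c3 + R ^ 2 * c1) * (s⁻¹ * ‖h‖) := by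
      by_cases hX : ‖x‖ / s ≤ R
      · rw [hF, hF]
        exact prod1 (hu2 _) (hu1 x h hX hh).1 (hG x hX) (hG1 x h hX hh)
      · have z1 : Fn d T K (x + h) = 0 := by
          by_contra hne
          exact hX (hnear x h hh hne)
        have z2 : Fn d T K x = 0 := by
          apply hzero
          push Not at hX
          linarith
        rw [z1, z2, sub_zero, abs_zero]
        positivity
    refine hfin.trans ?_
    rw [mul_assoc]
    refine mul_le_mul_of_nonneg_right ?_ hpos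
    have : 0 ≤ T₀ ^ 3 + (T₀ ^ 2 * 2 + R ^ 2 * c2 + 2 * (c1 * c3)) := by positivity
    linarith
  · intro x h hh
    have hpos : 0 ≤ (s⁻¹ * ‖h‖) ^ 2 := by positivity
    have hdi : (d : ℝ)⁻¹ * ‖h‖ ^ 2 = (s⁻¹ * ‖h‖) ^ 2 := by rw [hs2]; ring
    have hfin : |Fn d T K (x + h) + Fn d T K (x - h) - 2 * Fn d T K x| ≤
        (T₀ ^ 2 * 2 + R ^ 2 * c2 + 2 * (c1 * c3)) * (s⁻¹ * ‖h‖) ^ 2 := by
      by_cases hX : ‖x‖ / s ≤ R
      · have hmh : ‖-h‖ ≤ 1 := by rwa [norm_neg]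
        have am := hu1 x (-h) hX hmh
        have bm := hG1 x (-h) hX hmh
        rw [norm_neg, ← sub_eq_add_neg] at am bm
        have ap := hu1 x h hX hh
        have bp := hG1 x h hX hh
        rw [hF, hF, hF]
        refine prod2 (hu2 x) ap.1 am.1 ?_ (hG x hX) bp bm ?_ (by positivity) c10.le
        · -- second difference of the cut-off
          have p1 := phi2 T (‖x + h‖ ^ 2 / s ^ 2) (‖x‖ ^ 2 / s ^ 2)
          have p2 := phi2 T (‖x - h‖ ^ 2 / s ^ 2) (‖x‖ ^ 2 / s ^ 2)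
          have p3 : ‖x + h‖ ^ 2 / s ^ 2 + ‖x - h‖ ^ 2 / s ^ 2 =
              2 * (‖x‖ ^ 2 / s ^ 2) + 2 * (s⁻¹ * ‖h‖) ^ 2 := by
            rw [← add_div, par x h]
            field_simp
          have q1 : (‖x + h‖ ^ 2 / s ^ 2 - ‖x‖ ^ 2 / s ^ 2) ^ 2 ≤ c3 ^ 2 * (s⁻¹ * ‖h‖) ^ 2 := by
            rw [← mul_pow]
            exact sq_le_sq' (by have := (abs_le.1 ap.2).1; linarith) (abs_le.1 ap.2).2
          have q2 : (‖x - h‖ ^ 2 / s ^ 2 - ‖x‖ ^ 2 / s ^ 2) ^ 2 ≤ c3 ^ 2 * (s⁻¹ * ‖h‖) ^ 2 := by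
            rw [← mul_pow]
            exact sq_le_sq' (by have := (abs_le.1 am.2).1; linarith) (abs_le.1 am.2).2
          have q3 : 0 ≤ max 0 (T - ‖x‖ ^ 2 / s ^ 2) := hu0 x
          have q4 : max 0 (T - ‖x‖ ^ 2 / s ^ 2) ≤ T₀ := (huT x).trans hTT
          have e : max 0 (T - ‖x + h‖ ^ 2 / s ^ 2) ^ 2 + max 0 (T - ‖x - h‖ ^ 2 / s ^ 2) ^ 2 -
              2 * max 0 (T - ‖x‖ ^ 2 / s ^ 2) ^ 2 =
              (max 0 (T - ‖x + h‖ ^ 2 / s ^ 2) ^ 2 - max 0 (T - ‖x‖ ^ 2 / s ^ 2) ^ 2 +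
                2 * max 0 (T - ‖x‖ ^ 2 / s ^ 2) * (‖x + h‖ ^ 2 / s ^ 2 - ‖x‖ ^ 2 / s ^ 2)) +
              (max 0 (T - ‖x - h‖ ^ 2 / s ^ 2) ^ 2 - max 0 (T - ‖x‖ ^ 2 / s ^ 2) ^ 2 +
                2 * max 0 (T - ‖x‖ ^ 2 / s ^ 2) * (‖x - h‖ ^ 2 / s ^ 2 - ‖x‖ ^ 2 / s ^ 2)) -
              4 * (max 0 (T - ‖x‖ ^ 2 / s ^ 2) * (s⁻¹ * ‖h‖) ^ 2) := by
            linear_combination (-2 * max 0 (T - ‖x‖ ^ 2 / s ^ 2)) * p3
          have q5 : max 0 (T - ‖x‖ ^ 2 / s ^ 2) * (s⁻¹ * ‖h‖) ^ 2 ≤ T₀ * (s⁻¹ * ‖h‖) ^ 2 :=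
            mul_le_mul_of_nonneg_right q4 hpos
          have q6 : 0 ≤ max 0 (T - ‖x‖ ^ 2 / s ^ 2) * (s⁻¹ * ‖h‖) ^ 2 := mul_nonneg q3 hpos
          rw [e, hc2, ← hc3]
          rw [abs_le] at p1 p2 ⊢
          constructor <;> linarith [p1.1, p1.2, p2.1, p2.2]
        · have := inf_sq hK hcK h0 x h
          have e : Metric.infDist (x + h) K ^ 2 / s ^ 2 + Metric.infDist (x - h) K ^ 2 / s ^ 2 -
              2 * (Metric.infDist x K ^ 2 / s ^ 2) = (s⁻¹) ^ 2 * (Metric.infDist (x + h) K ^ 2 +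
                Metric.infDist (x - h) K ^ 2 - 2 * Metric.infDist x K ^ 2) := by
            field_simp
          rw [e, abs_mul, abs_of_nonneg (by positivity : 0 ≤ (s⁻¹) ^ 2)]
          calc _ ≤ (s⁻¹) ^ 2 * (2 * ‖h‖ ^ 2) := by gcongr
            _ = _ := by ring
      · have z1 : Fn d T K (x + h) = 0 := by
          by_contra hne
          exact hX (hnear x h hh hne)
        have z2 : Fn d T K x = 0 := by
          apply hzero
          push Not at hX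
          linarith
        have z3 : Fn d T K (x - h) = 0 := by
          by_contra hne
          rw [sub_eq_add_neg] at hne
          exact hX (hnear x (-h) (by rwa [norm_neg]) hne)
        rw [z1, z2, z3, mul_zero, add_zero, sub_zero, abs_zero]
        positivity
    refine hfin.trans ?_
    rw [mul_assoc, hdi]
    refine mul_le_mul_of_nonneg_right ?_ hpos
    have : 0 ≤ T₀ ^ 3 + (T₀ ^ 2 * c3 + R ^ 2 * c1) := by positivity
    linarith

end Pool.Agent.N799.CU
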