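import Pool.Agent.N799.CU.Def

/-!
# Project CU (MP_562679_an), leaf HESS (helper953): from differences to derivatives
-/

set_option autoImplicit false

namespace Pool.Agent.N799.CU

open Filter Topology

private lemma hess_one (φ φ' : ℝ → ℝ) (L C : ℝ) (h1 : ∀ t, HasDerivAt φ (φ' t) t) (h0 : φ 0 = 0)
    (h0' : φ' 0 = 0) (h2 : HasDerivAt φ' L 0) (hb : ∀ᶠ t in 𝓝[>] (0 : ℝ), φ t ≤ C * t ^ 2) :
    L ≤ 2 * C := by
  by_contra hlt
  push Not at hlt
  obtain ⟨C', hC1, hC2⟩ : ∃ C', C < C' ∧ 2 * C' < L := ⟨(2 * C + L) / 4, by linarith, by linarith⟩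
  have hs : Tendsto (slope φ' 0) (𝓝[≠] 0) (𝓝 L) := hasDerivAt_iff_tendsto_slope.1 h2
  have hs' : Tendsto (slope φ' 0) (𝓝[>] 0) (𝓝 L) :=
    hs.mono_left (nhdsWithin_mono _ (fun t ht => ne_of_gt ht))
  have ev : ∀ᶠ t in 𝓝[>] (0 : ℝ), 2 * C' < slope φ' 0 t := hs'.eventually (lt_mem_nhds hC2)
  have ev2 := ev.and hb
  obtain ⟨η, hη, hη'⟩ := (mem_nhdsGT_iff_exists_Ioo_subset).1 ev2
  have hη0 : (0 : ℝ) < η := hη
  obtain ⟨c, hc, hc'⟩ := exists_hasDerivAt_eq_slope (fun t => φ t - C' * t ^ 2)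
    (fun t => φ' t - C' * (2 * t)) (show (0 : ℝ) < η / 2 by linarith)
    (by
      intro t _
      have h3 : ContinuousAt φ t := (h1 t).continuousAt
      exact (h3.sub (by fun_prop)).continuousWithinAt)
    (by
      intro t _
      have h3 : HasDerivAt (fun t : ℝ => C' * t ^ 2) (C' * (2 * t)) t := by
        have h4 := (hasDerivAt_pow 2 t).const_mul C'
        simpa using h4
      exact (h1 t).sub h3)
  have hcm := hη' ⟨hc.1, by linarith [hc.2]⟩
  have hsm := hη' (show η / 2 ∈ Set.Ioo 0 η from ⟨by linarith, by linarith⟩)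
  obtain ⟨hcm1, -⟩ := hcm
  obtain ⟨-, hsm2⟩ := hsm
  have hc0 : (0 : ℝ) < c := hc.1
  have h5 : 2 * C' * c < φ' c := by
    have h6 : slope φ' 0 c = φ' c / c := by
      rw [slope_def_field, h0']
      simp
    rw [h6, lt_div_iff₀ hc0] at hcm1
    exact hcm1
  have h7 : 0 < φ' c - C' * (2 * c) := by linarith
  rw [hc'] at h7
  have h8 : (0 : ℝ) < η / 2 - 0 := by linarith
  have h9 := (div_pos_iff_of_pos_right h8).1 h7
  rw [h0] at h9
  have h10 : 0 < (C' - C) * (η / 2) ^ 2 := by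
    have : (0 : ℝ) < (η / 2) ^ 2 := by positivity
    exact mul_pos (by linarith) this
  have h11 : φ (η / 2) ≤ C * (η / 2) ^ 2 := hsm2
  nlinarith [h9, h10, h11]

private lemma hess_line (d : ℕ) (x h : E d) (t : ℝ) :
    HasDerivAt (fun t : ℝ => x + t • h) h t := by
  have := ((hasDerivAt_id t).smul_const h).const_add x
  simpa using this

private lemma hess_line' (d : ℕ) (x h : E d) (t : ℝ) :
    HasDerivAt (fun t : ℝ => x - t • h) (-h) t := by
  have := ((hasDerivAt_id t).smul_const h).const_sub x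
  simpa using this

/-- upper bound for the second derivative in one direction -/
private lemma hess_upper (d : ℕ) (f : E d → ℝ) (B : ℝ) (hf : ContDiff ℝ 2 f)
    (hB : ∀ x h : E d, ‖h‖ ≤ 1 → f (x + h) + f (x - h) - 2 * f x ≤ B * ‖h‖ ^ 2) (x h : E d) :
    fderiv ℝ (fderiv ℝ f) x h h ≤ B * ‖h‖ ^ 2 := by
  have hd : Differentiable ℝ f := hf.differentiable (by norm_num)
  have hg : ContDiff ℝ 1 (fderiv ℝ f) := hf.fderiv_right (by norm_num)
  have hgd : Differentiable ℝ (fderiv ℝ f) := hg.differentiable (by norm_num)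
  have key := hess_one (fun t => f (x + t • h) + f (x - t • h) - 2 * f x)
    (fun t => fderiv ℝ f (x + t • h) h - fderiv ℝ f (x - t • h) h)
    (fderiv ℝ (fderiv ℝ f) x h h + fderiv ℝ (fderiv ℝ f) x h h) (B * ‖h‖ ^ 2)
    (by
      intro t
      have h1 := (hd (x + t • h)).hasFDerivAt.comp_hasDerivAt t (hess_line d x h t)
      have h2 := (hd (x - t • h)).hasFDerivAt.comp_hasDerivAt t (hess_line' d x h t)
      have h3 := (h1.add h2).sub_const (2 * f x)
      have e : fderiv ℝ f (x + t • h) h + fderiv ℝ f (x - t • h) (-h) =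
          fderiv ℝ f (x + t • h) h - fderiv ℝ f (x - t • h) h := by
        rw [map_neg]
        ring
      rw [e] at h3
      exact h3)
    (by simp; ring) (by simp)
    (by
      have hx1 : HasFDerivAt (fderiv ℝ f) (fderiv ℝ (fderiv ℝ f) x) (x + (0 : ℝ) • h) := by
        rw [zero_smul, add_zero]
        exact (hgd x).hasFDerivAt
      have hx2 : HasFDerivAt (fderiv ℝ f) (fderiv ℝ (fderiv ℝ f) x) (x - (0 : ℝ) • h) := by
        rw [zero_smul, sub_zero]
        exact (hgd x).hasFDerivAt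
      have h1 := hx1.comp_hasDerivAt (0 : ℝ) (hess_line d x h 0)
      have h2 := hx2.comp_hasDerivAt (0 : ℝ) (hess_line' d x h 0)
      have h1' := h1.clm_apply (hasDerivAt_const (0 : ℝ) h)
      have h2' := h2.clm_apply (hasDerivAt_const (0 : ℝ) h)
      have h3 := h1'.sub h2'
      have e : (fderiv ℝ (fderiv ℝ f) x h h + (fderiv ℝ f ∘ fun t : ℝ => x + t • h) 0 0) -
          ((fderiv ℝ (fderiv ℝ f) x (-h)) h + (fderiv ℝ f ∘ fun t : ℝ => x - t • h) 0 0) =
          fderiv ℝ (fderiv ℝ f) x h h + fderiv ℝ (fderiv ℝ f) x h h := by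
        simp
      rw [e] at h3
      exact h3)
    (by
      have hev : ∀ᶠ t in 𝓝 (0 : ℝ), ‖t • h‖ < 1 := by
        have hc : Continuous (fun t : ℝ => ‖t • h‖) := by fun_prop
        have h4 : Tendsto (fun t : ℝ => ‖t • h‖) (𝓝 0) (𝓝 0) := by
          have := hc.tendsto (0 : ℝ)
          simpa using this
        exact h4.eventually (gt_mem_nhds one_pos)
      filter_upwards [mem_nhdsWithin_of_mem_nhds hev] with t ht
      have h5 := hB x (t • h) (le_of_lt ht)
      rw [norm_smul, mul_pow, Real.norm_eq_abs, sq_abs] at h5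
      calc f (x + t • h) + f (x - t • h) - 2 * f x ≤ B * (t ^ 2 * ‖h‖ ^ 2) := h5
        _ = B * ‖h‖ ^ 2 * t ^ 2 := by ring)
  linarith

/-- bound for the second derivative in one direction -/
private lemma hess_abs (d : ℕ) (f : E d → ℝ) (B : ℝ) (hf : ContDiff ℝ 2 f)
    (hB : ∀ x h : E d, ‖h‖ ≤ 1 → |f (x + h) + f (x - h) - 2 * f x| ≤ B * ‖h‖ ^ 2) (x h : E d) :
    |fderiv ℝ (fderiv ℝ f) x h h| ≤ B * ‖h‖ ^ 2 := by
  rw [abs_le]
  constructor
  · have h1 := hess_upper d (fun y => - f y) B hf.neg (fun y k hk => by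
      have := (abs_le.1 (hB y k hk)).1
      linarith) x h
    have e1 : fderiv ℝ (fun y => - f y) = fun y => - fderiv ℝ f y := by
      funext y
      exact fderiv_fun_neg
    have e2 : fderiv ℝ (fun y => - fderiv ℝ f y) x = - fderiv ℝ (fderiv ℝ f) x := fderiv_fun_neg
    rw [e1, e2] at h1
    have e3 : (- fderiv ℝ (fderiv ℝ f) x) h h = - (fderiv ℝ (fderiv ℝ f) x h h) := rfl
    rw [e3] at h1
    linarith
  · exact hess_upper d f B hf (fun y k hk => (abs_le.1 (hB y k hk)).2) x h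

private lemma hess_bilin (d : ℕ) (f : E d → ℝ) (B : ℝ) (hf : ContDiff ℝ 2 f)
    (hB : ∀ x h : E d, ‖h‖ ≤ 1 → |f (x + h) + f (x - h) - 2 * f x| ≤ B * ‖h‖ ^ 2) (x u Θ : E d)
    (hΘ : ‖Θ‖ = 1) : |fderiv ℝ (fderiv ℝ f) x u Θ| ≤ B * ‖u‖ := by
  have hd : Differentiable ℝ f := hf.differentiable (by norm_num)
  have hg : ContDiff ℝ 1 (fderiv ℝ f) := hf.fderiv_right (by norm_num)
  have hgd : Differentiable ℝ (fderiv ℝ f) := hg.differentiable (by norm_num)
  have hsymm : ∀ a b : E d, fderiv ℝ (fderiv ℝ f) x a b = fderiv ℝ (fderiv ℝ f) x b a :=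
    fun a b => second_derivative_symmetric (fun y => (hd y).hasFDerivAt) (hgd x).hasFDerivAt a b
  rcases eq_or_ne u 0 with rfl | hu
  · simp
  have hu' : 0 < ‖u‖ := norm_pos_iff.2 hu
  obtain ⟨v, hv⟩ : ∃ v : E d, v = ‖u‖ • Θ := ⟨_, rfl⟩
  have hvn : ‖v‖ = ‖u‖ := by rw [hv, norm_smul, hΘ, norm_norm, mul_one]
  obtain ⟨T, hT⟩ : ∃ T, T = fderiv ℝ (fderiv ℝ f) x := ⟨_, rfl⟩
  rw [← hT] at hsymm ⊢
  have h4 : 4 * T u v = T (u + v) (u + v) - T (u - v) (u - v) := by
    simp only [map_add, map_sub, add_apply, sub_apply]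
    rw [hsymm v u]
    ring
  have h5 := hess_abs d f B hf hB x (u + v)
  have h6 := hess_abs d f B hf hB x (u - v)
  rw [← hT] at h5 h6
  have h7 := parallelogram_law_with_norm ℝ u v
  have h8 : |4 * T u v| ≤ 4 * (B * ‖u‖ ^ 2) := by
    rw [h4]
    calc |T (u + v) (u + v) - T (u - v) (u - v)| ≤ |T (u + v) (u + v)| + |T (u - v) (u - v)| :=
          abs_sub _ _
      _ ≤ B * ‖u + v‖ ^ 2 + B * ‖u - v‖ ^ 2 := add_le_add h5 h6
      _ = B * (‖u + v‖ ^ 2 + ‖u - v‖ ^ 2) := by ring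
      _ = 4 * (B * ‖u‖ ^ 2) := by rw [h7, hvn]; ring
  have h9 : T u v = ‖u‖ * T u Θ := by rw [hv, map_smul, smul_eq_mul]
  rw [h9, abs_mul, abs_mul, abs_of_pos hu', abs_of_pos (by norm_num : (0 : ℝ) < 4)] at h8
  have h10 : ‖u‖ * |T u Θ| ≤ ‖u‖ * (B * ‖u‖) := by
    have : ‖u‖ * (B * ‖u‖) = B * ‖u‖ ^ 2 := by ring
    rw [this]
    linarith
  exact le_of_mul_le_mul_left h10 hu'

/-- From differences to derivatives. -/
theorem t_HESS : S_HESS := by
  intro d f A B hA hB0 hf hL hB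
  have hd : Differentiable ℝ f := hf.differentiable (by norm_num)
  have hg : ContDiff ℝ 1 (fderiv ℝ f) := hf.fderiv_right (by norm_num)
  have hgd : Differentiable ℝ (fderiv ℝ f) := hg.differentiable (by norm_num)
  refine ⟨?_, ?_⟩
  · have hA' : ∀ x, ‖fderiv ℝ f x‖ ≤ A := by
      intro x
      refine norm_fderiv_le_of_lip' ℝ hA ?_
      have hball : Metric.ball x 1 ∈ 𝓝 x := Metric.ball_mem_nhds x one_pos
      filter_upwards [hball] with y hy
      have h1 : ‖y - x‖ ≤ 1 := by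
        rw [← dist_eq_norm]
        exact le_of_lt hy
      have h2 := hL x (y - x) h1
      rw [add_sub_cancel] at h2
      exact h2
    intro x y
    have h3 := (convex_univ : Convex ℝ (Set.univ : Set (E d))).norm_image_sub_le_of_norm_fderiv_le
      (𝕜 := ℝ) (f := f) (C := A) (x := y) (y := x) (fun z _ => hd z) (fun z _ => hA' z)
      (Set.mem_univ _) (Set.mem_univ _)
    exact h3
  · intro Θ hΘ x y
    have hder : ∀ z : E d, HasFDerivAt (fun w => fderiv ℝ f w Θ)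
        ((ContinuousLinearMap.apply ℝ ℝ Θ).comp (fderiv ℝ (fderiv ℝ f) z)) z := fun z =>
      (ContinuousLinearMap.apply ℝ ℝ Θ).hasFDerivAt.comp z (hgd z).hasFDerivAt
    have hbd : ∀ z : E d,
        ‖(ContinuousLinearMap.apply ℝ ℝ Θ).comp (fderiv ℝ (fderiv ℝ f) z)‖ ≤ B := by
      intro z
      refine ContinuousLinearMap.opNorm_le_bound _ hB0 (fun u => ?_)
      exact hess_bilin d f B hf hB z u Θ hΘ
    have h3 := (convex_univ : Convex ℝ (Set.univ : Set (E d))).norm_image_sub_le_of_norm_hasFDerivWithin_le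
      (𝕜 := ℝ) (f := fun w => fderiv ℝ f w Θ) (C := B) (x := y) (y := x)
      (fun z _ => (hder z).hasFDerivWithinAt) (fun z _ => hbd z)
      (Set.mem_univ _) (Set.mem_univ _)
    exact h3

end Pool.Agent.N799.CU
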