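import Pool.Agent.N799.CU.Def

/-!
# CU/HULL (helper456): points of a shell near a convex hull
-/

set_option autoImplicit false

namespace Pool.Agent.N799.CU

theorem t_HULL : S_HULL := by
  intro d P x y a b δ hδ ha hP hxa hxb hy hxy
  rw [Finset.mem_convexHull'] at hy
  obtain ⟨w, hw0, hw1, hwy⟩ := hy
  have hx0 : 0 ≤ ‖x‖ := norm_nonneg x
  have hy0 : 0 ≤ ‖y‖ := norm_nonneg y
  have hXY : ‖x‖ ≤ ‖y‖ + δ := by
    have h1 : ‖x‖ ≤ ‖x - y‖ + ‖y‖ := by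
      have := norm_add_le (x - y) y
      rwa [sub_add_cancel] at this
    linarith
  have hXb : ‖x‖ ≤ Real.sqrt b := Real.le_sqrt_of_sq_le hxb
  have hdX : δ * ‖x‖ ≤ δ * Real.sqrt b := mul_le_mul_of_nonneg_left hXb hδ
  have hY : a - 2 * δ * Real.sqrt b ≤ ‖y‖ ^ 2 := by
    rcases le_total δ ‖x‖ with h | h
    · have h1 : (‖x‖ - δ) ^ 2 ≤ ‖y‖ ^ 2 :=
        pow_le_pow_left₀ (by linarith) (by linarith) 2
      nlinarith [sq_nonneg δ]
    · have h1 : ‖x‖ * ‖x‖ ≤ δ * ‖x‖ := mul_le_mul_of_nonneg_right h hx0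
      nlinarith [sq_nonneg ‖y‖]
  -- the sum of the squares
  have hsum : ∑ z ∈ P, w z * ‖z - y‖ ^ 2 = ∑ z ∈ P, w z * ‖z‖ ^ 2 - ‖y‖ ^ 2 := by
    have h1 : ∀ z ∈ P, w z * ‖z - y‖ ^ 2 =
        w z * ‖z‖ ^ 2 - 2 * inner ℝ (w z • z) y + w z * ‖y‖ ^ 2 := by
      intro z _
      rw [norm_sub_sq_real, real_inner_smul_left]
      ring
    rw [Finset.sum_congr rfl h1, Finset.sum_add_distrib, Finset.sum_sub_distrib, ← Finset.mul_sum,
      ← sum_inner, hwy, ← Finset.sum_mul, hw1, real_inner_self_eq_norm_sq]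
    ring
  have hle : ∑ z ∈ P, w z * ‖z‖ ^ 2 ≤ b := by
    calc ∑ z ∈ P, w z * ‖z‖ ^ 2 ≤ ∑ z ∈ P, w z * b :=
          Finset.sum_le_sum fun z hz => mul_le_mul_of_nonneg_left (hP z hz) (hw0 z hz)
      _ = b := by rw [← Finset.sum_mul, hw1, one_mul]
  obtain ⟨z, hz, hzT⟩ : ∃ z ∈ P, ‖z - y‖ ^ 2 ≤ b - a + 2 * δ * Real.sqrt b := by
    by_contra hcon
    push Not at hcon
    obtain ⟨z0, hz0, hpos⟩ : ∃ z0 ∈ P, 0 < w z0 := by
      by_contra h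
      push Not at h
      have := Finset.sum_nonpos h
      linarith
    have h1 : ∑ z ∈ P, w z * (b - a + 2 * δ * Real.sqrt b) < ∑ z ∈ P, w z * ‖z - y‖ ^ 2 :=
      Finset.sum_lt_sum (fun z hz => mul_le_mul_of_nonneg_left (hcon z hz).le (hw0 z hz))
        ⟨z0, hz0, mul_lt_mul_of_pos_left (hcon z0 hz0) hpos⟩
    rw [← Finset.sum_mul, hw1, one_mul, hsum] at h1
    linarith
  refine ⟨z, hz, ?_⟩
  have h2 : ‖y - z‖ ≤ Real.sqrt (b - a + 2 * δ * Real.sqrt b) := by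
    rw [norm_sub_rev]
    exact Real.le_sqrt_of_sq_le hzT
  have h3 : ‖x - z‖ ≤ ‖x - y‖ + ‖y - z‖ := by
    have := norm_add_le (x - y) (y - z)
    rwa [sub_add_sub_cancel] at this
  linarith

end Pool.Agent.N799.CU
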