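import Mathlib
import Pool.Agent.N799.CU.Def

/-!
Project CU of helper799: half of the volume is in a ball of radius `√(C₀ d)` (helper519).
-/

set_option autoImplicit false

namespace Pool.Agent.N799.CU

open MeasureTheory Finset Filter

/-- half of the volume is in a ball of radius `√(C₀ d)` -/
theorem t_LP (h1 : S_M2) : S_LP := by
  intro p hp
  obtain ⟨C, hC, h1⟩ := h1 p hp
  refine ⟨2 * C, by positivity, fun d r hd hr hvol => ?_⟩
  have hd0 : (0 : ℝ) < d := by
    have : 0 < d := by omega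
    exact_mod_cast this
  have hmp := EuclideanSpace.volume_preserving_symm_measurableEquiv_toLp (Fin d)
  have hB : Bp p d r = (WithLp.ofLp (p := 2) (V := Fin d → ℝ)) ⁻¹' BB p d r := rfl
  have hpre : ∀ s : Set (Fin d → ℝ), volume ((WithLp.ofLp (p := 2) (V := Fin d → ℝ)) ⁻¹' s) =
      volume s := by
    intro s
    have := MeasurePreserving.measure_preimage_equiv (f := (MeasurableEquiv.toLp 2 (Fin d → ℝ)).symm) hmp s
    exact this
  have hvB : volume (BB p d r) = 1 := by rw [← hpre, ← hB, hvol]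
  obtain ⟨A, hA⟩ : ∃ A : Set (Fin d → ℝ), A = {y | ∑ i, y i ^ 2 ≤ 2 * C * d} := ⟨_, rfl⟩
  have hAm : MeasurableSet A := by
    rw [hA]
    exact measurableSet_le (by fun_prop) measurable_const
  have hset : Bp p d r ∩ {x : E d | ‖x‖ ^ 2 ≤ 2 * C * d} =
      (WithLp.ofLp (p := 2) (V := Fin d → ℝ)) ⁻¹' (BB p d r ∩ A) := by
    rw [Set.preimage_inter, ← hB, hA]
    congr 1
    ext x
    simp only [Set.mem_ofPred_eq, Set.mem_preimage, EuclideanSpace.norm_sq_eq, Real.norm_eq_abs, sq_abs]
  rw [hset, hpre]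
  -- the second moment
  have hM : ∫⁻ y in BB p d r, ∑ i, ENNReal.ofReal (y i ^ 2) ≤ ENNReal.ofReal (C * d) := by
    rw [lintegral_finsetSum _ (fun i _ => by fun_prop)]
    calc ∑ i : Fin d, ∫⁻ y in BB p d r, ENNReal.ofReal (y i ^ 2)
        ≤ ∑ _i : Fin d, ENNReal.ofReal C := sum_le_sum fun i _ => h1 d r i hd hr hvB
      _ = ENNReal.ofReal (C * d) := by
          rw [sum_const, card_univ, Fintype.card_fin, nsmul_eq_mul, mul_comm C,
            ENNReal.ofReal_mul hd0.le, ENNReal.ofReal_natCast]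
  have hfm : Measurable (fun y : Fin d → ℝ => ∑ i, ENNReal.ofReal (y i ^ 2)) := by fun_prop
  have hmar := meas_ge_le_lintegral_div (μ := volume.restrict (BB p d r))
    (f := fun y : Fin d → ℝ => ∑ i, ENNReal.ofReal (y i ^ 2)) hfm.aemeasurable
    (ε := ENNReal.ofReal (2 * C * d)) (by
      rw [Ne, ENNReal.ofReal_eq_zero, not_le]
      positivity) ENNReal.ofReal_ne_top
  have hhalf : ENNReal.ofReal (C * d) / ENNReal.ofReal (2 * C * d) = ENNReal.ofReal (1 / 2) := by
    rw [← ENNReal.ofReal_div_of_pos (by positivity)]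
    congr 1
    field_simp
  have hdiff : volume (BB p d r \ A) ≤ ENNReal.ofReal (1 / 2) := by
    have h2 : BB p d r \ A ⊆ {y | ENNReal.ofReal (2 * C * d) ≤
        ∑ i, ENNReal.ofReal (y i ^ 2)} ∩ BB p d r := by
      intro y hy
      refine ⟨?_, hy.1⟩
      have h3 : ¬ (∑ i, y i ^ 2 ≤ 2 * C * d) := by
        have := hy.2
        rw [hA] at this
        exact this
      rw [Set.mem_ofPred_eq, ← ENNReal.ofReal_sum_of_nonneg (fun i _ => sq_nonneg _)]
      exact ENNReal.ofReal_le_ofReal (not_le.1 h3).le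
    have h4 : MeasurableSet {y : Fin d → ℝ | ENNReal.ofReal (2 * C * d) ≤
        ∑ i, ENNReal.ofReal (y i ^ 2)} := measurableSet_le measurable_const (by fun_prop)
    rw [Measure.restrict_apply h4] at hmar
    calc volume (BB p d r \ A) ≤ _ := measure_mono h2
      _ ≤ _ := hmar
      _ ≤ ENNReal.ofReal (C * d) / ENNReal.ofReal (2 * C * d) := by gcongr
      _ = _ := hhalf
  have hsum := measure_inter_add_sdiff (μ := volume) (BB p d r) hAm
  rw [hvB] at hsum
  have h5 : (1 : ENNReal) = ENNReal.ofReal (1 / 2) + ENNReal.ofReal (1 / 2) := by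
    rw [← ENNReal.ofReal_add (by norm_num) (by norm_num)]
    norm_num
  rw [h5] at hsum
  have h6 : ENNReal.ofReal (1 / 2) + ENNReal.ofReal (1 / 2) ≤
      volume (BB p d r ∩ A) + ENNReal.ofReal (1 / 2) := by
    rw [← hsum]
    gcongr
  exact (ENNReal.add_le_add_iff_right ENNReal.ofReal_ne_top).1 h6

end Pool.Agent.N799.CU
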