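import Pool.Agent.N799.CU.Def

/-!
# The curse of dimensionality for smooth integration: the second moment of a coordinate
Project CU (helper799), MP_562679_an; this part by helper195.
-/

set_option autoImplicit false

namespace Pool.Agent.N799.CU

open MeasureTheory Finset Filter
open Pool.Agent.N799.RI (Alg)

namespace M2_

theorem int_abs (f : ℝ → ℝ) (hf : IntegrableOn f (Set.Ioi 0)) : Integrable (fun x => f |x|) := by
  have hf' : IntegrableOn (fun x => f |x|) (Set.Ioi 0) := by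
    refine hf.congr_fun (fun x hx => ?_) measurableSet_Ioi
    rw [abs_of_pos (show (0 : ℝ) < x from hx)]
  have int_Iic : IntegrableOn (fun x ↦ f |x|) (Set.Iic 0) := by
    rw [← Measure.map_neg_eq_self (volume : Measure ℝ)]
    let m : MeasurableEmbedding fun x : ℝ => -x := (Homeomorph.neg ℝ).measurableEmbedding
    rw [m.integrableOn_map_iff]
    simp_rw [Function.comp_def, abs_neg, Set.neg_preimage, Set.neg_Iic, neg_zero]
    exact Iff.mpr integrableOn_Ici_iff_integrableOn_Ioi hf'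
  have h := int_Iic.union hf'
  rwa [Set.Iic_union_Ioi, integrableOn_univ] at h

/-- the majorant -/
noncomputable def F (p c s : ℝ) : ℝ := s ^ 2 * Real.exp (-c * (|s| ^ p - 1))

theorem F_int (p c : ℝ) (hp : 0 < p) (hc : 0 < c) : Integrable (F p c) := by
  have h1 : IntegrableOn (fun x : ℝ => x ^ (2 : ℝ) * Real.exp (-c * x ^ p)) (Set.Ioi 0) :=
    integrableOn_rpow_mul_exp_neg_mul_rpow (by norm_num) hp hc
  have h2 := (int_abs _ h1).const_mul (Real.exp c)
  refine h2.congr (Filter.Eventually.of_forall fun s => ?_)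
  show Real.exp c * (|s| ^ (2 : ℝ) * Real.exp (-c * |s| ^ p)) = s ^ 2 * Real.exp (-c * (|s| ^ p - 1))
  have h3 : |s| ^ (2 : ℝ) = s ^ 2 := by
    rw [Real.rpow_two, sq_abs]
  have h4 : Real.exp (-c * (|s| ^ p - 1)) = Real.exp c * Real.exp (-c * |s| ^ p) := by
    rw [← Real.exp_add]
    congr 1
    ring
  rw [h3, h4]
  ring

theorem F_nonneg (p c s : ℝ) : 0 ≤ F p c s := mul_nonneg (sq_nonneg _) (Real.exp_pos _).le

/-- the marginal density -/
noncomputable def ph (p r : ℝ) (D : ℕ) (s : ℝ) : ℝ := max 0 (1 - |s / r| ^ p) ^ ((D : ℝ) / p)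

theorem ph_nonneg (p r : ℝ) (D : ℕ) (s : ℝ) : 0 ≤ ph p r D s :=
  Real.rpow_nonneg (le_max_left _ _) _

theorem ph_meas (p r : ℝ) (D : ℕ) : Measurable (ph p r D) := by
  unfold ph
  fun_prop

theorem ph_mono {p r : ℝ} (hp : 0 < p) (hr : 0 < r) (D : ℕ) {s : ℝ} (h0 : 0 ≤ s) (h1 : s ≤ 1) :
    ph p r D 1 ≤ ph p r D s := by
  unfold ph
  apply Real.rpow_le_rpow (le_max_left _ _) _ (by positivity)
  apply max_le_max le_rfl
  have h2 : |s / r| ^ p ≤ |1 / r| ^ p := by
    apply Real.rpow_le_rpow (abs_nonneg _) _ hp.le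
    rw [abs_of_nonneg (by positivity), abs_of_nonneg (by positivity)]
    gcongr
  linarith

theorem ph_le {p r : ℝ} (hp : 0 < p) (hr : 0 < r) {D : ℕ} (hD : 1 ≤ D)
    (hRB : (2 * r) ^ p ≤ ((D + 1 : ℕ) : ℝ)) {s : ℝ} (hs : 1 ≤ |s|) :
    ph p r D s ≤ ph p r D 1 * Real.exp (-(2 ^ (p - 1) / p) * (|s| ^ p - 1)) := by
  have hD0 : (1 : ℝ) ≤ D := by exact_mod_cast hD
  have hq : (0 : ℝ) < (D : ℝ) / p := by positivity
  set a : ℝ := |1 / r| ^ p with ha
  have ha0 : 0 < a := Real.rpow_pos_of_pos (by positivity) _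
  have hb : |s / r| ^ p = |s| ^ p * a := by
    rw [ha, ← Real.mul_rpow (abs_nonneg _) (abs_nonneg _), ← abs_mul, mul_one_div]
  have ht : 1 ≤ |s| ^ p := Real.one_le_rpow hs hp.le
  set t : ℝ := |s| ^ p with ht'
  unfold ph
  rw [hb, ← ha]
  by_cases h1 : 1 ≤ t * a
  · rw [max_eq_left (by linarith), Real.zero_rpow hq.ne']
    exact mul_nonneg (Real.rpow_nonneg (le_max_left _ _) _) (Real.exp_pos _).le
  · push Not at h1
    have h2 : a ≤ t * a := le_mul_of_one_le_left ha0.le ht
    have h3 : a < 1 := by linarith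
    rw [max_eq_right (by linarith), max_eq_right (by linarith)]
    have h4 : 1 - t * a ≤ (1 - a) * Real.exp (-(t * a - a)) := by
      have h5 : 1 - (t * a - a) ≤ Real.exp (-(t * a - a)) := by
        have := Real.add_one_le_exp (-(t * a - a))
        linarith
      have h6 : (1 - a) * (1 - (t * a - a)) ≤ (1 - a) * Real.exp (-(t * a - a)) :=
        mul_le_mul_of_nonneg_left h5 (by linarith)
      have h7 : 0 ≤ a * (t * a - a) := mul_nonneg ha0.le (by linarith)
      linarith
    have h8 : (1 - t * a) ^ ((D : ℝ) / p) ≤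
        ((1 - a) * Real.exp (-(t * a - a))) ^ ((D : ℝ) / p) :=
      Real.rpow_le_rpow (by linarith) h4 hq.le
    refine h8.trans ?_
    rw [Real.mul_rpow (by linarith) (Real.exp_pos _).le, ← Real.exp_mul]
    apply mul_le_mul_of_nonneg_left _ (Real.rpow_nonneg (by linarith) _)
    apply Real.exp_le_exp.2
    -- `2 ^ (p - 1) ≤ D * a`
    have h9 : (2 : ℝ) ^ (p - 1) ≤ D * a := by
      have e1 : (2 * r) ^ p = 2 ^ p * r ^ p := Real.mul_rpow (by norm_num) hr.le
      have e2 : a * r ^ p = 1 := by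
        rw [ha, abs_of_nonneg (by positivity), ← Real.mul_rpow (by positivity) hr.le,
          one_div_mul_cancel hr.ne', Real.one_rpow]
      have e3 : (2 : ℝ) ^ (p - 1) = 2 ^ p / 2 := by
        rw [Real.rpow_sub (by norm_num), Real.rpow_one]
      have e4 : (2 : ℝ) ^ p * r ^ p ≤ 2 * D := by
        rw [← e1]
        refine hRB.trans ?_
        push_cast
        linarith
      have e5 : (2 : ℝ) ^ p * (a * r ^ p) ≤ 2 * D * a := by
        have := mul_le_mul_of_nonneg_left e4 ha0.le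
        nlinarith
      rw [e2, mul_one] at e5
      rw [e3]
      linarith
    have h10 : 0 ≤ t - 1 := by linarith
    have h11 : (2 : ℝ) ^ (p - 1) * (t - 1) ≤ D * a * (t - 1) := mul_le_mul_of_nonneg_right h9 h10
    have h12 : (2 : ℝ) ^ (p - 1) * (t - 1) / p ≤ D * a * (t - 1) / p :=
      div_le_div_of_nonneg_right h11 hp.le
    have h13 : -(t * a - a) * ((D : ℝ) / p) = -(D * a * (t - 1) / p) := by
      ring
    have h14 : -((2 : ℝ) ^ (p - 1) / p) * (t - 1) = -(2 ^ (p - 1) * (t - 1) / p) := by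
      ring
    rw [h13, h14]
    linarith

end M2_

open M2_

/-- **the second moment of a coordinate** -/
theorem t_M2 (h1 : S_RB) (h2 : S_SLICE) : S_M2 := by
  intro p hp
  set c : ℝ := 2 ^ (p - 1) / p with hc
  have hc0 : 0 < c := by positivity
  have hI : ∫⁻ s, ENNReal.ofReal (F p c s) < ⊤ := (F_int p c hp hc0).lintegral_lt_top
  set I : ENNReal := ∫⁻ s, ENNReal.ofReal (F p c s) with hIdef
  refine ⟨1 + I.toReal, by positivity, ?_⟩
  intro d r i hd hr hv
  obtain ⟨D, rfl⟩ : ∃ D, d = D + 1 := ⟨d - 1, by omega⟩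
  have hD : 1 ≤ D := by omega
  have hRB := h1 p (D + 1) r hp (by omega) hr hv
  set v : ENNReal := volume (BB p D r) with hvdef
  have e1 := h2 p D r i (fun _ => 1) hp hD hr measurable_const
  have e2 := h2 p D r i (fun s => ENNReal.ofReal (s ^ 2)) hp hD hr (by fun_prop)
  rw [← hvdef] at e1 e2
  have e1' : v * ∫⁻ s, ENNReal.ofReal (ph p r D s) = 1 := by
    have h3 : ∫⁻ _x in BB p (D + 1) r, (1 : ENNReal) = 1 := by
      rw [setLIntegral_one, hv]
    rw [h3] at e1
    rw [e1]
    congr 1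
    refine lintegral_congr fun s => ?_
    rw [one_mul]
    rfl
  have e2' : ∫⁻ x in BB p (D + 1) r, ENNReal.ofReal (x i ^ 2) =
      v * ∫⁻ s, ENNReal.ofReal (s ^ 2) * ENNReal.ofReal (ph p r D s) := e2
  have hpt : ∀ s : ℝ, ENNReal.ofReal (s ^ 2) * ENNReal.ofReal (ph p r D s) ≤
      ENNReal.ofReal (ph p r D s) + ENNReal.ofReal (ph p r D 1) * ENNReal.ofReal (F p c s) := by
    intro s
    rcases le_or_gt |s| 1 with h | h
    · refine le_trans ?_ le_self_add
      have h3 : ENNReal.ofReal (s ^ 2) ≤ 1 := by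
        rw [← ENNReal.ofReal_one]
        apply ENNReal.ofReal_le_ofReal
        rw [← sq_abs]
        exact pow_le_one₀ (abs_nonneg _) h
      exact mul_le_of_le_one_left zero_le h3
    · refine le_trans ?_ le_add_self
      rw [← ENNReal.ofReal_mul (sq_nonneg _), ← ENNReal.ofReal_mul (ph_nonneg _ _ _ _)]
      apply ENNReal.ofReal_le_ofReal
      unfold F
      have h3 := mul_le_mul_of_nonneg_left (ph_le hp hr hD hRB h.le) (sq_nonneg s)
      calc s ^ 2 * ph p r D s ≤ _ := h3
        _ = _ := by rw [hc]; ring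
  have hv1 : v * ENNReal.ofReal (ph p r D 1) ≤ 1 := by
    rw [← e1']
    apply mul_le_mul_right
    calc ENNReal.ofReal (ph p r D 1) = ∫⁻ _s in Set.Icc (0 : ℝ) 1, ENNReal.ofReal (ph p r D 1) := by
          rw [setLIntegral_const, Real.volume_Icc]
          simp
      _ ≤ ∫⁻ s in Set.Icc (0 : ℝ) 1, ENNReal.ofReal (ph p r D s) :=
          setLIntegral_mono' measurableSet_Icc fun s hs =>
            ENNReal.ofReal_le_ofReal (ph_mono hp hr D hs.1 hs.2)
      _ ≤ ∫⁻ s, ENNReal.ofReal (ph p r D s) := setLIntegral_le_lintegral _ _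
  rw [e2']
  calc v * ∫⁻ s, ENNReal.ofReal (s ^ 2) * ENNReal.ofReal (ph p r D s)
      ≤ v * ∫⁻ s, (ENNReal.ofReal (ph p r D s) +
          ENNReal.ofReal (ph p r D 1) * ENNReal.ofReal (F p c s)) := by
        apply mul_le_mul_right
        exact lintegral_mono hpt
    _ = v * (∫⁻ s, ENNReal.ofReal (ph p r D s)) + (v * ENNReal.ofReal (ph p r D 1)) * I := by
        rw [lintegral_add_left (ph_meas p r D).ennreal_ofReal,
          lintegral_const_mul' _ _ ENNReal.ofReal_ne_top, mul_add, mul_assoc]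
    _ ≤ 1 + 1 * I := by
        rw [e1']
        gcongr
    _ = ENNReal.ofReal (1 + I.toReal) := by
        rw [one_mul, ENNReal.ofReal_add zero_le_one ENNReal.toReal_nonneg, ENNReal.ofReal_one,
          ENNReal.ofReal_toReal hI.ne]

end Pool.Agent.N799.CU
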