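import Pool.Agent.N799.CU.Def

/-!
# Project CU (helper799), part MOL: smoothing by convolution with a bump (by helper565)
-/

set_option autoImplicit false

namespace Pool.Agent.N799.CU

open MeasureTheory Filter Metric

theorem t_MOL : S_MOL := by
  intro d F M A B τ hA hB hτ hτ1 hF h1 h2
  let φ : ContDiffBump (0 : E d) := ⟨τ / 2, τ, by positivity, by linarith⟩
  set ρ : E d → ℝ := φ.normed volume with hρ
  have ρ0 : ∀ t, 0 ≤ ρ t := fun t => φ.nonneg_normed t
  have ρc : Continuous ρ := φ.continuous_normed
  have ρs : HasCompactSupport ρ := φ.hasCompactSupport_normed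
  have ρi : ∫ t, ρ t = 1 := φ.integral_normed
  have ρz : ∀ t, τ < ‖t‖ → ρ t = 0 := by
    intro t ht
    by_contra hne
    have h3 : t ∈ Function.support ρ := hne
    rw [hρ, φ.support_normed_eq, mem_ball_zero_iff] at h3
    have h4 : ‖t‖ < τ := h3
    linarith
  have Fc : Continuous F := by
    rw [Metric.continuous_iff]
    intro x ε hε
    refine ⟨min 1 (ε / (A + 1)), by positivity, fun y hy => ?_⟩
    have hy1 : ‖y - x‖ < 1 := by
      rw [← dist_eq_norm]
      exact hy.trans_le (min_le_left _ _)
    have hy2 : ‖y - x‖ < ε / (A + 1) := by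
      rw [← dist_eq_norm]
      exact hy.trans_le (min_le_right _ _)
    have h3 := h1 x (y - x) hy1.le
    rw [add_sub_cancel] at h3
    rw [Real.dist_eq]
    rw [lt_div_iff₀ (by linarith)] at hy2
    have h4 := norm_nonneg (y - x)
    nlinarith
  have int : ∀ g : E d → ℝ, Continuous g → Integrable (fun t => ρ t * g t) := fun g hg =>
    (ρc.mul hg).integrable_of_hasCompactSupport ρs.mul_right
  have key : ∀ g : E d → ℝ, Continuous g → ∀ c, (∀ t, ‖t‖ ≤ τ → |g t| ≤ c) →
      |∫ t, ρ t * g t| ≤ c := by
    intro g hg c hc
    calc |∫ t, ρ t * g t| ≤ ∫ t, |ρ t * g t| := abs_integral_le_integral_abs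
      _ ≤ ∫ t, ρ t * c := by
          refine integral_mono (int g hg).abs (int _ continuous_const) fun t => ?_
          show |ρ t * g t| ≤ ρ t * c
          rw [abs_mul, abs_of_nonneg (ρ0 t)]
          rcases le_or_gt ‖t‖ τ with ht | ht
          · exact mul_le_mul_of_nonneg_left (hc t ht) (ρ0 t)
          · rw [ρz t ht, zero_mul, zero_mul]
      _ = c := by rw [integral_mul_const, ρi, one_mul]
  have cs : ∀ x : E d, Continuous fun t => F (x - t) := fun x =>
    Fc.comp (continuous_const.sub continuous_id)
  set f : E d → ℝ := fun x => ∫ t, ρ t * F (x - t) with hf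
  have fd : ContDiff ℝ 2 f := by
    have h3 : ContDiff ℝ 2 (convolution ρ F (ContinuousLinearMap.mul ℝ ℝ) volume) :=
      ρs.contDiff_convolution_left (ContinuousLinearMap.mul ℝ ℝ) φ.contDiff_normed
        Fc.locallyIntegrable
    exact h3
  refine ⟨f, fd, fun x => ⟨?_, ?_⟩, fun x h hh => ?_, fun x h hh => ?_, fun x => ?_, fun x hx => ?_⟩
  · exact integral_nonneg fun t => mul_nonneg (ρ0 t) (hF _).1
  · calc f x ≤ ∫ t, ρ t * M := by
          refine integral_mono (int _ (cs x)) (int _ continuous_const) fun t => ?_
          exact mul_le_mul_of_nonneg_left (hF _).2 (ρ0 t)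
      _ = M := by rw [integral_mul_const, ρi, one_mul]
  · have e : f (x + h) - f x = ∫ t, ρ t * (F (x + h - t) - F (x - t)) := by
      rw [hf]
      simp only
      rw [← integral_sub (int _ (cs _)) (int _ (cs _))]
      refine integral_congr_ae (Eventually.of_forall fun t => ?_)
      simp only
      ring
    rw [e]
    refine key (fun t => F (x + h - t) - F (x - t)) ((cs _).sub (cs _)) _ fun t _ => ?_
    show |F (x + h - t) - F (x - t)| ≤ A * ‖h‖
    have e2 : x + h - t = x - t + h := by abel
    rw [e2]
    exact h1 (x - t) h hh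
  · have e : f (x + h) + f (x - h) - 2 * f x =
        ∫ t, ρ t * (F (x + h - t) + F (x - h - t) - 2 * F (x - t)) := by
      rw [hf]
      simp only
      have i1 : Integrable (fun t => ρ t * F (x + h - t) + ρ t * F (x - h - t)) :=
        (int _ (cs _)).add (int _ (cs _))
      rw [← integral_add (int _ (cs _)) (int _ (cs _)), ← integral_const_mul,
        ← integral_sub i1 ((int _ (cs _)).const_mul 2)]
      refine integral_congr_ae (Eventually.of_forall fun t => ?_)
      simp only
      ring
    rw [e]
    refine key (fun t => F (x + h - t) + F (x - h - t) - 2 * F (x - t))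
      (((cs _).add (cs _)).sub (continuous_const.mul (cs _))) _ fun t _ => ?_
    show |F (x + h - t) + F (x - h - t) - 2 * F (x - t)| ≤ B * ‖h‖ ^ 2
    have e2 : x + h - t = x - t + h := by abel
    have e3 : x - h - t = x - t - h := by abel
    rw [e2, e3]
    exact h2 (x - t) h hh
  · have e : f x - F x = ∫ t, ρ t * (F (x - t) - F x) := by
      have e1 : F x = ∫ t, ρ t * F x := by rw [integral_mul_const, ρi, one_mul]
      rw [hf]
      simp only
      conv_lhs => rw [e1]
      rw [← integral_sub (int _ (cs _)) (int _ continuous_const)]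
      refine integral_congr_ae (Eventually.of_forall fun t => ?_)
      simp only
      ring
    rw [e]
    refine key (fun t => F (x - t) - F x) ((cs _).sub continuous_const) _ fun t ht => ?_
    show |F (x - t) - F x| ≤ A * τ
    have h3 := h1 x (-t) (by rw [norm_neg]; linarith)
    rw [norm_neg, ← sub_eq_add_neg] at h3
    exact h3.trans (mul_le_mul_of_nonneg_left ht hA)
  · rw [hf]
    simp only
    have : ∀ t, ρ t * F (x - t) = 0 := by
      intro t
      rcases le_or_gt ‖t‖ τ with ht | ht
      · rw [hx (x - t) (by rw [sub_sub_cancel_left, norm_neg]; exact ht), mul_zero]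
      · rw [ρz t ht, zero_mul]
    simp_rw [this]
    simp

end Pool.Agent.N799.CU
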