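import Pool.Agent.N799.CU.Def

/-!
Project CU (helper799), OP: the balls are open (helper747).
-/

set_option autoImplicit false

namespace Pool.Agent.N799.CU

theorem t_OP : S_OP := by
  intro p d r hp
  unfold Bp
  refine isOpen_lt ?_ continuous_const
  refine continuous_finset_sum _ fun i _ => ?_
  have h1 : Continuous fun x : E d => |x i / r| := by
    have h2 : Continuous fun x : E d => x i := by fun_prop
    exact (h2.div_const r).abs
  exact h1.rpow_const fun _ => Or.inr hp.le

end Pool.Agent.N799.CU
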