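import Pool.Agent.N799.CU.Def

/-!
Project CU (helper799), MP_562679_an, part RB: the radius of the `ℓ_p` ball of volume one
(helper281).
-/

set_option autoImplicit false

namespace Pool.Agent.N799.CU

open MeasureTheory Finset

theorem t_RB : S_RB := by
  intro p d r hp hd hr hvol
  have hdR : (0 : ℝ) < d := by exact_mod_cast hd
  obtain ⟨s, hs⟩ : ∃ s : ℝ, s = (1 / (d : ℝ)) ^ (1 / p) := ⟨_, rfl⟩
  have hs0 : 0 < s := by rw [hs]; positivity
  have hsp : s ^ p = 1 / (d : ℝ) := by
    rw [hs, ← Real.rpow_mul (by positivity), one_div_mul_cancel hp.ne', Real.rpow_one]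
  have hsub : Set.pi Set.univ (fun _ : Fin d => Set.Ioo (-(r * s)) (r * s)) ⊆ BB p d r := by
    intro x hx
    have hlt : ∀ i, |x i / r| ^ p < 1 / (d : ℝ) := by
      intro i
      have h1 := hx i (Set.mem_univ i)
      have h2 : |x i / r| < s := by
        rw [abs_div, abs_of_pos hr, div_lt_iff₀ hr, abs_lt]
        constructor
        · have := h1.1
          linarith [mul_comm r s]
        · have := h1.2
          linarith [mul_comm r s]
      rw [← hsp]
      exact Real.rpow_lt_rpow (abs_nonneg _) h2 hp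
    have hne : (Finset.univ : Finset (Fin d)).Nonempty := ⟨⟨0, hd⟩, mem_univ _⟩
    have h3 : ∑ i, |x i / r| ^ p < ∑ _i : Fin d, 1 / (d : ℝ) :=
      Finset.sum_lt_sum_of_nonempty hne fun i _ => hlt i
    rw [sum_const, card_univ, Fintype.card_fin, nsmul_eq_mul, mul_one_div_cancel hdR.ne'] at h3
    exact h3
  have hle : volume (Set.pi Set.univ (fun _ : Fin d => Set.Ioo (-(r * s)) (r * s))) ≤ 1 := by
    rw [← hvol]
    exact measure_mono hsub
  rw [volume_pi_pi, prod_const, card_univ, Fintype.card_fin, Real.volume_Ioo] at hle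
  have h2 : 2 * (r * s) ≤ 1 := by
    by_contra hcon
    push Not at hcon
    have h3 : 1 < ENNReal.ofReal (r * s - -(r * s)) := by
      rw [← ENNReal.ofReal_one]
      exact (ENNReal.ofReal_lt_ofReal_iff (by linarith)).2 (by linarith)
    have h4 := one_lt_pow₀ h3 (by omega : d ≠ 0)
    exact absurd hle (not_le.2 h4)
  have h3 : (2 * r) ^ p * s ^ p ≤ 1 := by
    rw [← Real.mul_rpow (by positivity) hs0.le]
    have h4 : 2 * r * s ≤ 1 := by linarith
    calc (2 * r * s) ^ p ≤ 1 ^ p := Real.rpow_le_rpow (by positivity) h4 hp.le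
      _ = 1 := Real.one_rpow p
  rw [hsp, mul_one_div, div_le_one hdR] at h3
  exact h3

end Pool.Agent.N799.CU
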