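import Pool.Agent.N799.CU.Def

/-!
# Project CU (helper799), part SHELL (helper152): a shell of fixed volume
-/

set_option autoImplicit false

namespace Pool.Agent.N799.CU

open MeasureTheory Finset Filter

/-- a shell of fixed volume -/
theorem t_SHELL : S_SHELL := by
  intro d D C₀ κ ε K hd _ hε hK hC hκ hvol
  by_contra hno
  push Not at hno
  have hd0 : (0 : ℝ) < d := by exact_mod_cast hd
  have hed : 0 < ε * d := by positivity
  have hK0 : (0 : ℝ) < K := by exact_mod_cast hK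
  have hsub : D ∩ {x : E d | ‖x‖ ^ 2 ≤ C₀ * d} ⊆
      ⋃ j ∈ Finset.range K, (D ∩ {x : E d | j * ε * d ≤ ‖x‖ ^ 2 ∧ ‖x‖ ^ 2 < (j + 1) * ε * d}) := by
    rintro x ⟨hx1, hx2⟩
    have hx2' : ‖x‖ ^ 2 ≤ C₀ * d := hx2
    obtain ⟨y, hy⟩ : ∃ y : ℝ, y = ‖x‖ ^ 2 / (ε * d) := ⟨_, rfl⟩
    have hy0 : 0 ≤ y := by
      rw [hy]
      positivity
    have hyx : y * (ε * d) = ‖x‖ ^ 2 := by
      rw [hy]
      field_simp
    have hyK : y < K := by
      have h1 : y * (ε * d) < K * (ε * d) := by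
        rw [hyx]
        calc ‖x‖ ^ 2 ≤ C₀ * d := hx2'
          _ < K * ε * d := mul_lt_mul_of_pos_right hC hd0
          _ = K * (ε * d) := by ring
      exact lt_of_mul_lt_mul_right h1 hed.le
    rw [Set.mem_iUnion₂]
    refine ⟨⌊y⌋₊, ?_, hx1, ?_⟩
    · rw [Finset.mem_range]
      exact (Nat.floor_lt hy0).2 hyK
    · have h1 := Nat.floor_le hy0
      have h2 := Nat.lt_floor_add_one y
      constructor
      · calc (⌊y⌋₊ : ℝ) * ε * d = (⌊y⌋₊ : ℝ) * (ε * d) := by ring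
          _ ≤ y * (ε * d) := mul_le_mul_of_nonneg_right h1 hed.le
          _ = ‖x‖ ^ 2 := hyx
      · calc ‖x‖ ^ 2 = y * (ε * d) := hyx.symm
          _ < ((⌊y⌋₊ : ℝ) + 1) * (ε * d) := mul_lt_mul_of_pos_right h2 hed
          _ = ((⌊y⌋₊ : ℝ) + 1) * ε * d := by ring
  have h1 := (measure_mono hsub).trans (measure_biUnion_finset_le (μ := volume) (Finset.range K) _)
  have h2 : ∑ j ∈ Finset.range K,
      volume (D ∩ {x : E d | j * ε * d ≤ ‖x‖ ^ 2 ∧ ‖x‖ ^ 2 < (j + 1) * ε * d}) <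
      ∑ _j ∈ Finset.range K, ENNReal.ofReal (κ / K) := by
    apply ENNReal.sum_lt_sum_of_nonempty
    · exact ⟨0, Finset.mem_range.2 (by omega)⟩
    · intro j hj
      exact hno j (Finset.mem_range.1 hj)
  rw [Finset.sum_const, Finset.card_range, nsmul_eq_mul, ← ENNReal.ofReal_natCast,
    ← ENNReal.ofReal_mul (Nat.cast_nonneg _), mul_div_cancel₀ _ hK0.ne'] at h2
  exact absurd (hvol.trans h1) (not_le.2 h2)

end Pool.Agent.N799.CU
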