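import Pool.Agent.N799.CU.Def

/-!
# Project CU (helper799), part SLICE: slices of the `ℓ_p` ball (helper901)
-/

set_option autoImplicit false

namespace Pool.Agent.N799.CU

open MeasureTheory Finset Filter
open scoped Pointwise

namespace SliceAux

/-- the ball with another bound -/
def AA (p : ℝ) (d : ℕ) (r c : ℝ) : Set (Fin d → ℝ) := {y | ∑ i, |y i / r| ^ p < c}

lemma AA_vol (p : ℝ) (d : ℕ) (r c : ℝ) (hp : 0 < p) (hd : 1 ≤ d) :
    volume (AA p d r c) = volume (BB p d r) * ENNReal.ofReal (max 0 c ^ ((d : ℝ) / p)) := by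
  have hd0 : (0 : ℝ) < d := by exact_mod_cast hd
  rcases le_or_gt c 0 with hc | hc
  · have h1 : AA p d r c = ∅ := by
      ext y
      simp only [AA, Set.mem_ofPred_eq, Set.mem_empty_iff_false, iff_false, not_lt]
      exact hc.trans (sum_nonneg fun i _ => Real.rpow_nonneg (abs_nonneg _) _)
    rw [h1, measure_empty, max_eq_left hc, Real.zero_rpow (by positivity)]
    simp
  · set l : ℝ := c ^ (1 / p) with hl
    have hl0 : 0 < l := Real.rpow_pos_of_pos hc _
    have hlp : l ^ p = c := by
      rw [hl, ← Real.rpow_mul hc.le, one_div, inv_mul_cancel₀ hp.ne', Real.rpow_one]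
    have h1 : AA p d r c = l • BB p d r := by
      ext y
      rw [Set.mem_smul_set_iff_inv_smul_mem₀ hl0.ne']
      simp only [AA, BB, Set.mem_ofPred_eq, Pi.smul_apply, smul_eq_mul]
      have h2 : ∀ i, |l⁻¹ * y i / r| ^ p = c⁻¹ * |y i / r| ^ p := by
        intro i
        rw [mul_div_assoc, abs_mul, Real.mul_rpow (abs_nonneg _) (abs_nonneg _),
          abs_of_pos (inv_pos.mpr hl0), Real.inv_rpow hl0.le, hlp]
      simp only [h2]
      rw [← mul_sum, inv_mul_lt_iff₀ hc, mul_one]
    have h3 : l ^ d = c ^ ((d : ℝ) / p) := by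
      rw [hl, ← Real.rpow_natCast, ← Real.rpow_mul hc.le]
      congr 1
      ring
    rw [h1, Measure.addHaar_smul, Module.finrank_fin_fun, h3, max_eq_right hc.le,
      abs_of_nonneg (Real.rpow_nonneg hc.le _), mul_comm]

end SliceAux

open SliceAux

theorem t_SLICE : S_SLICE := by
  intro p d r i g hp hd hr hg
  -- measurability
  have hmeas : ∀ j : Fin d, Measurable fun q : ℝ × (Fin d → ℝ) => |q.2 j / r| ^ p := by
    intro j
    have h1 : Measurable fun q : ℝ × (Fin d → ℝ) => |q.2 j / r| := by
      apply Continuous.measurable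
      fun_prop
    exact h1.pow_const p
  have hmeas0 : Measurable fun q : ℝ × (Fin d → ℝ) => |q.1 / r| ^ p := by
    have h1 : Measurable fun q : ℝ × (Fin d → ℝ) => |q.1 / r| := by
      apply Continuous.measurable
      fun_prop
    exact h1.pow_const p
  set D : Set (ℝ × (Fin d → ℝ)) := {q | ∑ j, |q.2 j / r| ^ p < 1 - |q.1 / r| ^ p} with hDdef
  have hD : MeasurableSet D := measurableSet_lt (Finset.measurable_sum _ fun j _ => hmeas j)
    (measurable_const.sub hmeas0)
  have hBm : MeasurableSet (BB p (d + 1) r) := by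
    refine measurableSet_lt (Finset.measurable_sum _ fun j _ => ?_) measurable_const
    have h1 : Measurable fun x : Fin (d + 1) → ℝ => |x j / r| := by
      apply Continuous.measurable
      fun_prop
    exact h1.pow_const p
  have hvp := volume_preserving_piFinSuccAbove (fun _ : Fin (d + 1) => ℝ) i
  have hGm : Measurable (D.indicator fun q : ℝ × (Fin d → ℝ) => g q.1) :=
    (hg.comp measurable_fst).indicator hD
  have h1 : ∫⁻ x in BB p (d + 1) r, g (x i) =
      ∫⁻ x, D.indicator (fun q : ℝ × (Fin d → ℝ) => g q.1)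
        ((MeasurableEquiv.piFinSuccAbove (fun _ : Fin (d + 1) => ℝ) i) x) := by
    rw [← lintegral_indicator hBm]
    congr 1
    ext x
    have h2 : (MeasurableEquiv.piFinSuccAbove (fun _ : Fin (d + 1) => ℝ) i) x =
      (x i, fun j => x (i.succAbove j)) := rfl
    rw [h2]
    have h3 : x ∈ BB p (d + 1) r ↔ (x i, fun j => x (i.succAbove j)) ∈ D := by
      simp only [BB, hDdef, Set.mem_ofPred_eq]
      rw [Fin.sum_univ_succAbove _ i]
      constructor
      · intro h; linarith
      · intro h; linarith
    by_cases hx : x ∈ BB p (d + 1) r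
    · rw [Set.indicator_of_mem hx, Set.indicator_of_mem (h3.mp hx)]
    · rw [Set.indicator_of_notMem hx, Set.indicator_of_notMem (fun h => hx (h3.mpr h))]
  rw [h1, hvp.lintegral_comp hGm, Measure.volume_eq_prod, lintegral_prod _ hGm.aemeasurable]
  have h4 : ∀ s : ℝ, ∫⁻ y : Fin d → ℝ, D.indicator (fun q : ℝ × (Fin d → ℝ) => g q.1) (s, y) =
      volume (BB p d r) *
        (g s * ENNReal.ofReal (max 0 (1 - |s / r| ^ p) ^ ((d : ℝ) / p))) := by
    intro s
    have h5 : (fun y : Fin d → ℝ => D.indicator (fun q : ℝ × (Fin d → ℝ) => g q.1) (s, y)) =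
        (AA p d r (1 - |s / r| ^ p)).indicator fun _ => g s := by
      ext y
      by_cases hy : y ∈ AA p d r (1 - |s / r| ^ p)
      · rw [Set.indicator_of_mem hy, Set.indicator_of_mem (show (s, y) ∈ D from hy)]
      · rw [Set.indicator_of_notMem hy, Set.indicator_of_notMem (show (s, y) ∉ D from hy)]
    have h6 : MeasurableSet (AA p d r (1 - |s / r| ^ p)) := by
      have := (measurable_const.prodMk measurable_id : Measurable fun y : Fin d → ℝ => (s, y)) hD
      exact this
    rw [h5, lintegral_indicator_const h6, AA_vol p d r _ hp hd]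
    ring
  simp only [h4]
  rw [lintegral_const_mul]
  refine hg.mul (ENNReal.measurable_ofReal.comp ?_)
  have h7 : Measurable fun s : ℝ => |s / r| := by
    apply Continuous.measurable
    fun_prop
  exact (measurable_const.max (measurable_const.sub (h7.pow_const p))).pow_const _

end Pool.Agent.N799.CU
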